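import Pool.Agent.Lib.MP_c29043_lc.CR.Spec

/-!
# MP_c29043_lc, project CR: the bisection keeps good vectors (S_BiA)
-/

set_option autoImplicit false

open N68a2faeb N487b59b3 Pool.Agent.Lib.PolyTime

namespace Pool.Agent.Lib.MP_c29043_lc.CR

open Pool.Agent.Lib.MP_c29043_lc

namespace BiAAux

/-- the values of the changed vector -/
private theorem vec_upd {A : List ((ℕ × ℕ) × ℕ)} {x : List (ℕ × ℕ)} {z c : ℕ} (hz : z ∈ verts A)
    (hx : ∀ v, v ∉ verts A → vec x v = 0) :
    vec (upd A x z c) = fun v => if v = z then c else vec x v := by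
  unfold upd
  apply vec_tab_eq
  intro v hv
  have hvz : v ≠ z := by
    intro h
    apply hv
    rw [h]
    exact hz
  simp only [if_neg hvz]
  exact hx v hv

/-- changing the value of a node to a number below the bound keeps the vector good -/
private theorem good_upd {e : Env} {x : List (ℕ × ℕ)} {z c : ℕ} (hz : z ∈ verts e.1) (hx : Good e x)
    (hc : c ≤ e.2.2.2) : Good e (upd e.1 x z c) := by
  intro v
  rw [vec_upd hz (fun v hv => (hx v).2 hv)]
  by_cases h : v = z
  · simp only [if_pos h]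
    exact ⟨hc, fun hv => absurd (h ▸ hz) hv⟩
  · simp only [if_neg h]
    exact hx v

/-- the value found by the bisection is below the bound -/
private theorem bic_le (h1 : S_Gre) {e : Env} (he : EnvOK e) (F : List ℕ × List (ℕ × ℕ) → List (ℕ × ℕ)) (z : ℕ)
    (Y : List ℕ) (x : List (ℕ × ℕ)) : bic e F z Y x ≤ e.2.2.2 := by
  obtain ⟨B, hB, h2, -⟩ := he
  have key := (h1 (fun t => decide (t ≤ TA e.1 e.2.1 (F (Y, upd e.1 x z t)) z)) B).1
  simp only [decide_eq_true_eq] at key
  unfold bic
  rw [hB]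
  omega

end BiAAux

open BiAAux in
theorem tBiA (h1 : S_Gre) : S_BiA := by
  intro e F he hF X x z hX hx hz
  have hzv : z ∈ verts e.1 := hX z hz
  have hY : ∀ u ∈ X.filter (fun u => decide (u ≠ z)), u ∈ verts e.1 := fun u hu =>
    hX u (List.mem_of_mem_filter hu)
  have hb : bic e F z (X.filter fun u => decide (u ≠ z)) x ≤ e.2.2.2 := bic_le h1 he F z _ x
  obtain ⟨hg, hv⟩ := hF (X.filter fun u => decide (u ≠ z)) _ hY (good_upd hzv hx hb)
  refine ⟨hg, ?_⟩
  intro v hvX
  have hvz : v ≠ z := by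
    intro h
    apply hvX
    rw [h]
    exact hz
  have h3 := hv v (fun h => hvX (List.mem_of_mem_filter h))
  unfold bis
  rw [h3, vec_upd hzv (fun v hv => (hx v).2 hv)]
  simp only [if_neg hvz]

end Pool.Agent.Lib.MP_c29043_lc.CR
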