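import Pool.Agent.Lib.MP_c29043_lc.CR.Spec

/-!
# MP_c29043_lc, project CR, module Bis: the bisection
-/

set_option autoImplicit false

open N68a2faeb N487b59b3 Pool.Agent.Lib.PolyTime

namespace Pool.Agent.Lib.MP_c29043_lc.CR

open Pool.Agent.Lib.MP_c29043_lc

namespace BisAux

theorem vec_upd_self {A : List ((ℕ × ℕ) × ℕ)} {x : List (ℕ × ℕ)} {z c : ℕ} (hz : z ∈ verts A) :
    vec (upd A x z c) z = c := by
  unfold upd
  rw [vec_tab hz, if_pos rfl]

theorem vec_upd_ne {A : List ((ℕ × ℕ) × ℕ)} {x : List (ℕ × ℕ)} {z c v : ℕ} (hv : v ≠ z)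
    (h0 : v ∉ verts A → vec x v = 0) : vec (upd A x z c) v = vec x v := by
  unfold upd
  by_cases h : v ∈ verts A
  · rw [vec_tab h, if_neg hv]
  · rw [vec_tab_zero h, h0 h]

theorem good_upd {e : Env} {x : List (ℕ × ℕ)} {z c : ℕ} (hx : Good e x) (hz : z ∈ verts e.1)
    (hc : c ≤ e.2.2.2) : Good e (upd e.1 x z c) := by
  intro v
  by_cases hv : v = z
  · subst hv
    rw [vec_upd_self hz]
    exact ⟨hc, fun h => absurd hz h⟩
  · rw [vec_upd_ne hv (hx v).2]
    exact hx v

end BisAux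

/-- **Bis**: the bisection solves the equations of a component up to a larger error. -/
theorem tBis (h1 : S_Hlf) (h2 : S_Gre) (h3 : S_Dif) : S_Bis := by
  intro e F k r hE hFA hFB X x z hX hx hz hR
  obtain ⟨B, hB1, hB2, hB3⟩ := hE
  have hzv : z ∈ verts e.1 := hX z hz
  set Y : List ℕ := X.filter fun u => decide (u ≠ z) with hYdef
  have hYm : ∀ u, u ∈ Y ↔ u ∈ X ∧ u ≠ z := by
    intro u
    rw [hYdef, List.mem_filter, decide_eq_true_eq]
  have hYv : ∀ u ∈ Y, u ∈ verts e.1 := fun u hu => hX u ((hYm u).1 hu).1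
  have hzY : z ∉ Y := fun h => ((hYm z).1 h).2 rfl
  have hYR : Rank e.1 k {u | u ∈ Y} := by
    have hs : {u | u ∈ Y} = {u | u ∈ X} \ {z} := by
      ext u
      simp only [Set.mem_ofPred_eq, Set.mem_sdiff, Set.mem_singleton_iff]
      exact hYm u
    rw [hs]
    exact hR
  -- the approximate solutions
  have hgood : ∀ t, t < 2 ^ B → Good e (upd e.1 x z t) := fun t ht =>
    BisAux.good_upd hx hzv (by omega)
  have hyz : ∀ t, t < 2 ^ B → vec (F (Y, upd e.1 x z t)) z = t := by
    intro t ht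
    rw [(hFA Y _ hYv (hgood t ht)).2 z hzY, BisAux.vec_upd_self hzv]
  have hyo : ∀ t, t < 2 ^ B → ∀ v, v ∉ Y → v ≠ z → vec (F (Y, upd e.1 x z t)) v = vec x v := by
    intro t ht v hv hvz
    rw [(hFA Y _ hYv (hgood t ht)).2 v hv, BisAux.vec_upd_ne hvz (hx v).2]
  have hyn : ∀ t, t < 2 ^ B → ∀ v ∈ Y, near r (vec (F (Y, upd e.1 x z t)) v)
      (TL e.1 e.2.1.length (vec (F (Y, upd e.1 x z t))) v) := fun t ht =>
    hFB Y _ hYv (hgood t ht) hYR
  -- the bisection
  have hfold : bic e F z Y x = (pwL B).foldl (fun c p =>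
      if (fun t : ℕ => decide (t ≤ TA e.1 e.2.1 (F (Y, upd e.1 x z t)) z)) (c + p) = true
        then c + p else c) 0 := by
    unfold bic
    rw [hB1]
    refine congrArg (fun f => (pwL B).foldl f 0) ?_
    funext c p
    by_cases h : c + p ≤ TA e.1 e.2.1 (F (Y, upd e.1 x z (c + p))) z
    · rw [if_pos h, if_pos (decide_eq_true h)]
    · rw [if_neg h, if_neg (by rw [decide_eq_true_eq]; exact h)]
  obtain ⟨hG1, hG2, hG3⟩ :=
    h2 (fun t : ℕ => decide (t ≤ TA e.1 e.2.1 (F (Y, upd e.1 x z t)) z)) B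
  rw [← hfold] at hG1 hG2 hG3
  have hbis : bis e F z Y x = F (Y, upd e.1 x z (bic e F z Y x)) := rfl
  rw [hbis]
  set c : ℕ := bic e F z Y x with hc
  have hr1 : r ≤ 2 ^ e.2.1.length * (2 * r + 1) := by
    have h5 : 1 ≤ 2 ^ e.2.1.length := Nat.one_le_two_pow
    nlinarith
  intro v hv
  by_cases hvz : v = z
  · subst hvz
    rw [hyz c hG1]
    refine ⟨?_, ?_⟩
    · rcases hG2 with h0 | h0
      · rw [h0]
        exact Nat.zero_le _
      · have h6 : c ≤ TA e.1 e.2.1 (F (Y, upd e.1 x v c)) v := of_decide_eq_true h0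
        rw [h1.2.1] at h6
        omega
    · rcases hG3 with h0 | h0
      · have h6 : TL e.1 e.2.1.length (vec (F (Y, upd e.1 x v c))) v ≤ wts e.1 := by
          unfold TL
          exact T_le_bound le_wts v
        omega
      · by_cases hcB : c + 1 = 2 ^ B
        · have h6 : TL e.1 e.2.1.length (vec (F (Y, upd e.1 x v c))) v ≤ wts e.1 := by
            unfold TL
            exact T_le_bound le_wts v
          omega
        · have hc1 : c + 1 < 2 ^ B := by omega
          have h6 : ¬ (c + 1 ≤ TA e.1 e.2.1 (F (Y, upd e.1 x v (c + 1))) v) :=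
            of_decide_eq_false h0
          rw [h1.2.1] at h6
          have h7 := h3 e.1 e.2.1.length r (vec (F (Y, upd e.1 x v c)))
            (vec (F (Y, upd e.1 x v (c + 1)))) Y v
            (by rw [hyz c hG1, hyz (c + 1) hc1]; exact ⟨by omega, by omega⟩)
            (fun u hu huz => by rw [hyo c hG1 u hu huz, hyo (c + 1) hc1 u hu huz])
            (hyn c hG1) (hyn (c + 1) hc1) v
          have h8 := h7.1
          omega
  · have h6 := hyn c hG1 v ((hYm v).2 ⟨hv, hvz⟩)
    exact ⟨h6.1.trans (by omega), h6.2.trans (by omega)⟩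

end Pool.Agent.Lib.MP_c29043_lc.CR
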