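import Pool.Agent.Lib.MP_c29043_lc.CR.Spec

/-!
# MP_c29043_lc, project CR, module Cmp: one strong component
-/

set_option autoImplicit false

open N68a2faeb N487b59b3 Pool.Agent.Lib.PolyTime

namespace Pool.Agent.Lib.MP_c29043_lc.CR

open Pool.Agent.Lib.MP_c29043_lc

/-- the test in terms of the discounted operator -/
private theorem Cmp_res (h1 : S_Hlf) (e : Env) (r : ℕ) (y : List (ℕ × ℕ)) (v : ℕ) :
    res e r y v = true ↔ near r (vec y v) (TL e.1 e.2.1.length (vec y) v) := by
  unfold res near
  rw [h1.2.1 e.1 e.2.1 y v, Bool.and_eq_true, decide_eq_true_eq, decide_eq_true_eq]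

private theorem Cmp_near_mono {r s a b : ℕ} (hrs : r ≤ s) (h : near r a b) : near s a b := by
  unfold near at h ⊢
  omega

/-- the head of a filtered list of lists -/
private theorem Cmp_head {α : Type} (l : List α) (q : α → Bool) (x : α) :
    ((∀ y ∈ l, q y = false) ∧ (l.filter q).headD x = x) ∨
      ((l.filter q).headD x ∈ l ∧ q ((l.filter q).headD x) = true) := by
  cases hf : l.filter q with
  | nil =>
    left
    refine ⟨?_, rfl⟩
    intro y hy
    by_contra hcon
    have h1 : y ∈ l.filter q := List.mem_filter.2 ⟨hy, by simpa using hcon⟩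
    rw [hf] at h1
    exact absurd h1 (by simp)
  | cons y t =>
    right
    have h1 : y ∈ l.filter q := by rw [hf]; exact List.mem_cons_self
    exact List.mem_filter.1 h1

theorem tCmp (h1 : S_Hlf) (h2 : S_BiA) (h3 : S_Bis) : S_Cmp := by
  intro e F k r ρ hE hFA hFB hρ X x hX hG
  rcases Cmp_head (X.map fun z => bis e F z (X.filter fun u => decide (u ≠ z)) x)
    (fun y => X.all fun v => res e ρ y v) x with ⟨h4, h5⟩ | ⟨h4, h5⟩
  · have hc : cmp e F ρ X x = x := h5
    rw [hc]
    refine ⟨hG, fun v _ => rfl, ?_⟩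
    rintro ⟨z, hz, hR⟩
    exfalso
    have h6 := h4 _ (List.mem_map.2 ⟨z, hz, rfl⟩)
    have h7 : (X.all fun v => res e ρ (bis e F z (X.filter fun u => decide (u ≠ z)) x) v) = true := by
      rw [List.all_eq_true]
      intro v hv
      rw [Cmp_res h1]
      exact Cmp_near_mono hρ (h3 e F k r hE hFA hFB X x z hX hG hz hR v hv)
    rw [h7] at h6
    exact absurd h6 (by simp)
  · obtain ⟨z, hz, hzy⟩ := List.mem_map.1 h4
    have hc : cmp e F ρ X x = bis e F z (X.filter fun u => decide (u ≠ z)) x := hzy.symm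
    have h6 := h2 e F hE hFA X x z hX hG hz
    rw [hc]
    refine ⟨h6.1, h6.2, fun _ v hv => ?_⟩
    rw [← hzy] at h5
    have h7 : (X.all fun v => res e ρ (bis e F z (X.filter fun u => decide (u ≠ z)) x) v) = true := h5
    rw [List.all_eq_true] at h7
    exact (Cmp_res h1 e ρ _ v).1 (h7 v hv)

end Pool.Agent.Lib.MP_c29043_lc.CR
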