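import Pool.Agent.Lib.MP_c29043_lc.CR.Spec

/-!
# MP_c29043_lc, project CR, module Cor: correctness of the algorithm
-/

set_option autoImplicit false

open N68a2faeb N487b59b3 Pool.Agent.Lib.PolyTime

namespace Pool.Agent.Lib.MP_c29043_lc.CR

open Pool.Agent.Lib.MP_c29043_lc

private theorem headD_mem {α : Type} (l : List α) (d : α) (h : l ≠ []) : l.headD d ∈ l := by
  cases l with
  | nil => exact absurd rfl h
  | cons a l => exact List.mem_cons_self

theorem tCor (h1 : S_Apx) (h2 : S_Thr) (h3 : S_Rnd) : S_Cor := by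
  intro K A hev hrk
  obtain ⟨hnear, hzero, hM1, hM2, hr⟩ := h1 K A hrk
  obtain ⟨y, hy⟩ : ∃ y, y = sol (env A K) K (verts A, tab (verts A) fun _ => 0) := ⟨_, rfl⟩
  rw [← hy] at hnear hzero
  obtain ⟨hth, θ0, hθ0, hg0⟩ := h2 (ml A K) (Mf A K) (rad (Ls A) K) (verts A) y hM1 hM2 hr
  obtain ⟨l, hl⟩ : ∃ l, l = (ths (rad (Ls A) K) (verts A)).filter
      fun θ => gth (ml A K) (Mf A K) (rad (Ls A) K) (verts A) y θ := ⟨_, rfl⟩
  have hne : l ≠ [] := by
    intro h
    have h5 : θ0 ∈ l := by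
      rw [hl]
      exact List.mem_filter.2 ⟨hθ0, hg0⟩
    rw [h] at h5
    exact absurd h5 List.not_mem_nil
  have hmem := headD_mem l 0 hne
  have hmem2 : l.headD 0 ∈ ths (rad (Ls A) K) (verts A) ∧
      gth (ml A K) (Mf A K) (rad (Ls A) K) (verts A) y (l.headD 0) = true := by
    have h6 : l.headD 0 ∈ (ths (rad (Ls A) K) (verts A)).filter
        fun θ => gth (ml A K) (Mf A K) (rad (Ls A) K) (verts A) y θ := by
      rw [← hl]
      exact hmem
    exact List.mem_filter.1 h6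
  obtain ⟨hb1, hb2⟩ := hth _ hmem2.1
  have hfin := h3 A (ml A K) (Mf A K) (rad (Ls A) K) (l.headD 0) y hev hM1 hr hb1 hb2 hnear hzero
    hmem2.2
  have he : alg K A = tab (verts A) fun v => rnd (ml A K) (Mf A K) (l.headD 0) (vec y v) := by
    unfold alg fin
    rw [← hy, ← hl]
  rw [he]
  exact hfin

end Pool.Agent.Lib.MP_c29043_lc.CR
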