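import Pool.Agent.Lib.MP_c29043_lc.CR.Spec

/-!
# MP_c29043_lc, project CR: two approximate solutions
-/

set_option autoImplicit false

open N68a2faeb N487b59b3 Pool.Agent.Lib.PolyTime

namespace Pool.Agent.Lib.MP_c29043_lc.CR

open Pool.Agent.Lib.MP_c29043_lc

namespace DifAux

/-- the distance -/
def D (x y : ℕ → ℕ) (u : ℕ) : ℕ := (x u - y u) + (y u - x u)

theorem near_D {x y : ℕ → ℕ} {u r : ℕ} (h : D x y u ≤ r) : near r (x u) (y u) := by
  unfold D at h
  unfold near
  omega

theorem D_le {x y : ℕ → ℕ} {u r : ℕ} (h : near r (x u) (y u)) : D x y u ≤ r := by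
  unfold D
  unfold near at h
  omega

end DifAux

open DifAux

theorem tDif (h1 : S_Psi) : S_Dif := by
  intro A ℓ r x y Y z hz hout hx hy
  obtain ⟨hmono, hsol⟩ := h1 ℓ
  set d : ℕ := Y.toFinset.sup (D x y) with hd
  have hle : ∀ u ∈ Y, D x y u ≤ d := fun u hu =>
    Finset.le_sup (f := D x y) (List.mem_toFinset.mpr hu)
  set h : ℕ := max 1 (psi ℓ d) with hh
  have hpm : ∀ s t : ℕ, s ≤ t → psi ℓ s ≤ psi ℓ t := fun s t hst => (hmono s t hst).1
  have hpsile : ∀ t : ℕ, psi ℓ t ≤ t := fun t => by unfold psi; exact Nat.sub_le _ _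
  have hpsi : ∀ u, near h (psi ℓ (x u)) (psi ℓ (y u)) := by
    intro u
    have key : psi ℓ (x u) ≤ psi ℓ (y u) + psi ℓ (D x y u) ∧ psi ℓ (y u) ≤ psi ℓ (x u) + psi ℓ (D x y u) := by
      rcases le_total (x u) (y u) with hle' | hle'
      · have h2 := hmono _ _ hle'
        have h3 : D x y u = y u - x u := by unfold D; omega
        rw [h3]
        exact ⟨by omega, h2.2⟩
      · have h2 := hmono _ _ hle'
        have h3 : D x y u = x u - y u := by unfold D; omega
        rw [h3]
        exact ⟨h2.2, by omega⟩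
    have hD : psi ℓ (D x y u) ≤ h := by
      by_cases hu : u ∈ Y
      · exact (hpm _ _ (hle u hu)).trans (le_max_right _ _)
      · by_cases huz : u = z
        · rw [huz]
          exact ((hpsile _).trans (D_le hz)).trans (le_max_left _ _)
        · have : D x y u = 0 := by unfold D; rw [hout u hu huz]; omega
          rw [this]
          exact (hpsile 0).trans (Nat.zero_le _)
    exact ⟨by omega, by omega⟩
  have hT : ∀ v, near h (TL A ℓ x v) (TL A ℓ y v) := by
    intro v
    have e1 := T_nonexp (A := A) (x := fun u => psi ℓ (x u)) (y := fun u => psi ℓ (y u)) (h := h)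
      (fun u => (hpsi u).1) v
    have e2 := T_nonexp (A := A) (x := fun u => psi ℓ (y u)) (y := fun u => psi ℓ (x u)) (h := h)
      (fun u => (hpsi u).2) v
    exact ⟨e2, e1⟩
  have hdb : d ≤ 2 * r + h := by
    rw [hd]
    refine Finset.sup_le fun u hu => ?_
    have hu' : u ∈ Y := List.mem_toFinset.mp hu
    have h2 := hx u hu'
    have h3 := hy u hu'
    have h4 := hT u
    unfold near at h2 h3 h4
    unfold D
    omega
  have hd2 := hsol d r hdb
  have hpos : 1 ≤ 2 ^ ℓ * (2 * r + 1) := Nat.mul_pos (by positivity) (by omega)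
  have hh2 : h ≤ 2 ^ ℓ * (2 * r + 1) := max_le hpos ((hpsile d).trans hd2)
  intro v
  have h4 := hT v
  unfold near at h4 ⊢
  omega

end Pool.Agent.Lib.MP_c29043_lc.CR
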