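import Pool.Agent.Lib.MP_c29043_lc.CR.Spec

/-!
# MP_c29043_lc, project CR, module Fin: the final theorem from correctness and running time
-/

set_option autoImplicit false

open N68a2faeb N487b59b3 Pool.Agent.Lib.PolyTime

namespace Pool.Agent.Lib.MP_c29043_lc.CR

open Pool.Agent.Lib.MP_c29043_lc

namespace FinAux

theorem nodes_eq (A : List ((ℕ × ℕ) × ℕ)) : nodes A = {v | v ∈ verts A} := by
  ext v
  change (∃ a ∈ A, a.1.1 = v ∨ a.1.2 = v) ↔ v ∈ verts A
  unfold verts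
  rw [mem_nub, List.mem_append, List.mem_map, List.mem_map]
  constructor
  · rintro ⟨a, ha, h | h⟩
    · exact Or.inl ⟨a, ha, h⟩
    · exact Or.inr ⟨a, ha, h⟩
  · rintro (⟨a, ha, h⟩ | ⟨a, ha, h⟩)
    · exact ⟨a, ha, Or.inl h⟩
    · exact ⟨a, ha, Or.inr h⟩

end FinAux

theorem tFin (h1 : S_Cor) (h2 : S_PtG) : S_Fin := by
  intro K
  refine ⟨fun A => alg K A, h2 K, ?_⟩
  intro A hA hR
  change Rank A K (nodes A) at hR
  rw [FinAux.nodes_eq] at hR
  exact h1 K A hA hR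

end Pool.Agent.Lib.MP_c29043_lc.CR
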