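import Pool.Agent.Lib.MP_c29043_lc.CR.Spec

/-!
# MP_c29043_lc, project CR, module Gre: bisection without monotonicity
-/

set_option autoImplicit false

open N68a2faeb N487b59b3 Pool.Agent.Lib.PolyTime

namespace Pool.Agent.Lib.MP_c29043_lc.CR

open Pool.Agent.Lib.MP_c29043_lc

namespace GreAux

private theorem gen (P : ℕ → Bool) (N B : ℕ) : ∀ c0 : ℕ, (c0 = 0 ∨ P c0 = true) →
    (c0 + 2 ^ B = N ∨ P (c0 + 2 ^ B) = false) →
    (pwL B).foldl (fun c p => if P (c + p) = true then c + p else c) c0 < c0 + 2 ^ B ∧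
    ((pwL B).foldl (fun c p => if P (c + p) = true then c + p else c) c0 = 0 ∨
      P ((pwL B).foldl (fun c p => if P (c + p) = true then c + p else c) c0) = true) ∧
    ((pwL B).foldl (fun c p => if P (c + p) = true then c + p else c) c0 + 1 = N ∨
      P ((pwL B).foldl (fun c p => if P (c + p) = true then c + p else c) c0 + 1) = false) := by
  induction B with
  | zero =>
    intro c0 h1 h2
    rw [pwL, List.foldl_nil]
    rw [pow_zero] at h2 ⊢
    exact ⟨Nat.lt_succ_self c0, h1, h2⟩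
  | succ B ih =>
    intro c0 h1 h2
    have e : c0 + 2 ^ (B + 1) = c0 + 2 ^ B + 2 ^ B := by ring
    rw [e] at h2 ⊢
    rw [pwL, List.foldl_cons]
    by_cases h : P (c0 + 2 ^ B) = true
    · rw [if_pos h]
      exact ih (c0 + 2 ^ B) (Or.inr h) h2
    · rw [if_neg h]
      obtain ⟨a, b, c⟩ := ih c0 h1 (Or.inr (Bool.eq_false_iff.mpr h))
      exact ⟨a.trans_le (Nat.le_add_right _ _), b, c⟩

end GreAux

theorem tGre : S_Gre := by
  intro P B
  obtain ⟨a, b, c⟩ := GreAux.gen P (2 ^ B) B 0 (Or.inl rfl) (Or.inl (Nat.zero_add _))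
  rw [Nat.zero_add] at a
  exact ⟨a, b, c⟩

end Pool.Agent.Lib.MP_c29043_lc.CR
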