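import Pool.Agent.Lib.MP_c29043_lc.CR.Spec

set_option autoImplicit false

open N68a2faeb N487b59b3 Pool.Agent.Lib.PolyTime

namespace Pool.Agent.Lib.MP_c29043_lc.CR

open Pool.Agent.Lib.MP_c29043_lc

namespace HlfAux

theorem hlf_eq (L : List Bool) (n : ℕ) : hlf L n = n / 2 ^ L.length := by
  induction L generalizing n with
  | nil => simp [hlf]
  | cons b L ih =>
    have e : hlf (b :: L) n = hlf L (n / 2) := rfl
    rw [e, ih, List.length_cons, Nat.div_div_eq_div_mul, pow_succ, mul_comm]

theorem T_congr (A : List ((ℕ × ℕ) × ℕ)) (x y : ℕ → ℕ) (v : ℕ)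
    (h : ∀ e ∈ A, e.1.2 = v → x e.1.1 = y e.1.1) : T A x v = T A y v := by
  unfold T
  congr 1
  refine List.map_congr_left fun e he => ?_
  rw [List.mem_filter] at he
  rw [h e he.1 (by simpa using he.2)]

theorem rl_len (L : List Bool) (k : ℕ) : (rl L k).length = k * (L.length + 2) := by
  induction k with
  | zero => simp [rl]
  | succ k ih =>
    rw [rl, List.length_append, ih, List.length_cons, List.length_cons]
    ring

end HlfAux

theorem tHlf : S_Hlf := by
  refine ⟨HlfAux.hlf_eq, fun A L x v => ?_, HlfAux.T_congr, fun L k => ?_⟩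
  · unfold TA TL
    refine HlfAux.T_congr A _ _ v fun e he _ => ?_
    rw [vec_tab (mem_verts he).1, HlfAux.hlf_eq]
    rfl
  · unfold rad
    rw [pws_eq, HlfAux.rl_len]

end Pool.Agent.Lib.MP_c29043_lc.CR
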