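import Pool.Agent.Lib.MP_c29043_lc.CR.Spec

set_option autoImplicit false

open N68a2faeb N487b59b3 Pool.Agent.Lib.PolyTime

namespace Pool.Agent.Lib.MP_c29043_lc.CR

open Pool.Agent.Lib.MP_c29043_lc

theorem tInd (h1 : S_Hlf) (h2 : S_Lop) : S_Ind := by
  intro e he k
  induction k with
  | zero =>
    refine ⟨fun Y x _ hx => ⟨hx, fun v _ => rfl⟩, ?_⟩
    intro Y x _ _ hR v hv
    have h : {u | u ∈ Y} = (∅ : Set ℕ) := hR
    have h3 : v ∈ {u | u ∈ Y} := hv
    rw [h] at h3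
    exact absurd h3 (Set.notMem_empty v)
  | succ k ih =>
    have hr : 2 ^ e.2.1.length * (2 * rad e.2.1 k + 1) ≤ rad e.2.1 (k + 1) := by
      rw [h1.2.2.2, h1.2.2.2]
      have e1 : 2 ^ ((k + 1) * (e.2.1.length + 2)) =
          2 ^ e.2.1.length * (4 * 2 ^ (k * (e.2.1.length + 2))) := by
        rw [add_mul, one_mul, pow_add, pow_add]
        ring
      rw [e1]
      refine Nat.mul_le_mul_left _ ?_
      have h3 : 1 ≤ 2 ^ (k * (e.2.1.length + 2)) := Nat.one_le_two_pow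
      omega
    exact h2 e (sol e k) k (rad e.2.1 k) (rad e.2.1 (k + 1)) he ih.1 ih.2 hr

end Pool.Agent.Lib.MP_c29043_lc.CR
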