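import Pool.Agent.Lib.MP_c29043_lc.CR.Spec

/-!
# MP_c29043_lc, project CR: all strong components
-/

set_option autoImplicit false

open N68a2faeb N487b59b3 Pool.Agent.Lib.PolyTime

namespace Pool.Agent.Lib.MP_c29043_lc.CR

open Pool.Agent.Lib.MP_c29043_lc

namespace LopAux

/-- the invariant of the loop which started with the pair `(U, x0)` -/
structure Inv (e : Env) (k ρ : ℕ) (U : List ℕ) (x0 : List (ℕ × ℕ)) (s : List ℕ × List (ℕ × ℕ)) : Prop where
  sub : ∀ u ∈ s.1, u ∈ U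
  good : Good e s.2
  out : ∀ v, v ∉ U → vec s.2 v = vec x0 v
  eqn : Rank e.1 (k + 1) {u | u ∈ U} → ∀ v ∈ U, v ∉ s.1 →
    near ρ (vec s.2 v) (TL e.1 e.2.1.length (vec s.2) v)
  arc : ∀ a ∈ e.1, a.1.2 ∈ U → a.1.2 ∉ s.1 → a.1.1 ∉ s.1

/-- the new values are those of `cmp` -/
theorem vec_stp {e : Env} {y : List (ℕ × ℕ)} (hy : Good e y) :
    vec (tab (verts e.1) fun v => min e.2.2.2 (vec y v)) = vec y := by
  rw [vec_tab_eq]
  · funext v
    exact min_eq_right (hy v).1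
  · intro v hv
    rw [(hy v).2 hv]
    exact Nat.min_zero _

theorem mem_new {R X : List ℕ} {v : ℕ} :
    v ∈ R.filter (fun u => decide (u ∉ X)) ↔ v ∈ R ∧ v ∉ X := by
  rw [List.mem_filter, decide_eq_true_iff]

theorem length_new {R X : List ℕ} (hX : X ≠ []) (hXR : ∀ u ∈ X, u ∈ R) :
    (R.filter (fun u => decide (u ∉ X))).length < R.length := by
  obtain ⟨u, hu⟩ := List.exists_mem_of_ne_nil X hX
  rw [List.length_filter_lt_length_iff_exists]
  refine ⟨u, hXR u hu, ?_⟩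
  rw [decide_eq_true_iff, not_not]
  exact hu

/-- one step -/
theorem step (h1 : S_Hlf) (h2 : S_Src) (h3 : S_Cmp) {e : Env}
    {F : List ℕ × List (ℕ × ℕ) → List (ℕ × ℕ)} {k r ρ : ℕ} (he : EnvOK e) (hA : FA e F)
    (hB : FB e k r F) (hρ : 2 ^ e.2.1.length * (2 * r + 1) ≤ ρ) {U : List ℕ} {x0 : List (ℕ × ℕ)}
    (hU : ∀ u ∈ U, u ∈ verts e.1) {s : List ℕ × List (ℕ × ℕ)} (hs : Inv e k ρ U x0 s)
    (hne : s.1 ≠ []) :
    Inv e k ρ U x0 (stp e F ρ s) ∧ (stp e F ρ s).1.length < s.1.length := by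
  obtain ⟨hX1, hX2, hX3, hX4⟩ := h2 e.1 s.1 hne
  have hXv : ∀ u ∈ src e.1 s.1, u ∈ verts e.1 := fun u hu => hU u (hs.sub u (hX1 u hu))
  obtain ⟨hc1, hc2, hc3⟩ := h3 e F k r ρ he hA hB hρ (src e.1 s.1) s.2 hXv hs.good
  have hstp : stp e F ρ s = (s.1.filter fun u => decide (u ∉ src e.1 s.1),
      tab (verts e.1) fun v => min e.2.2.2 (vec (cmp e F ρ (src e.1 s.1) s.2) v)) := by
    unfold stp
    rw [if_neg hne]
  have hvec : vec (stp e F ρ s).2 = vec (cmp e F ρ (src e.1 s.1) s.2) := by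
    rw [hstp]
    exact vec_stp hc1
  have hR : (stp e F ρ s).1 = s.1.filter fun u => decide (u ∉ src e.1 s.1) := by rw [hstp]
  refine ⟨⟨?_, ?_, ?_, ?_, ?_⟩, ?_⟩
  · intro u hu
    rw [hR, mem_new] at hu
    exact hs.sub u hu.1
  · intro v
    rw [hvec]
    exact hc1 v
  · intro v hv
    rw [hvec, hc2 v (fun h => hv (hs.sub v (hX1 v h)))]
    exact hs.out v hv
  · intro hrank v hv hvR
    rw [hvec]
    rw [hR, mem_new] at hvR
    by_cases hvX : v ∈ src e.1 s.1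
    · have hex : ∃ z ∈ src e.1 s.1, Rank e.1 k ({u | u ∈ src e.1 s.1} \ {z}) := by
        have h := hrank {u | u ∈ src e.1 s.1} (fun u hu => hs.sub u (hX1 u hu))
          (List.exists_mem_of_ne_nil _ hX2) hX3
        obtain ⟨z, hz, hz'⟩ := h
        exact ⟨z, hz, hz'⟩
      exact hc3 hex v hvX
    · have hvs : v ∉ s.1 := fun h => hvR ⟨h, hvX⟩
      have hT : TL e.1 e.2.1.length (vec (cmp e F ρ (src e.1 s.1) s.2)) v =
          TL e.1 e.2.1.length (vec s.2) v := by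
        unfold TL
        refine h1.2.2.1 e.1 _ _ v ?_
        intro a ha hav
        have ha' : a.1.1 ∉ src e.1 s.1 := fun h =>
          hs.arc a ha (by rw [hav]; exact hv) (by rw [hav]; exact hvs) (hX1 _ h)
        simp only [hc2 a.1.1 ha']
      rw [hT, hc2 v hvX]
      exact hs.eqn hrank v hv hvs
  · intro a ha haU haR
    rw [hR, mem_new] at haR ⊢
    rintro ⟨h, h'⟩
    by_cases haX : a.1.2 ∈ src e.1 s.1
    · exact h' (hX4 a ha haX h)
    · exact hs.arc a ha haU (fun h0 => haR ⟨h0, haX⟩) h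
  · rw [hR]
    exact length_new hX2 hX1

/-- the loop -/
theorem loop (h1 : S_Hlf) (h2 : S_Src) (h3 : S_Cmp) {e : Env}
    {F : List ℕ × List (ℕ × ℕ) → List (ℕ × ℕ)} {k r ρ : ℕ} (he : EnvOK e) (hA : FA e F)
    (hB : FB e k r F) (hρ : 2 ^ e.2.1.length * (2 * r + 1) ≤ ρ) {U : List ℕ} {x0 : List (ℕ × ℕ)}
    (hU : ∀ u ∈ U, u ∈ verts e.1) (L : List ℕ) :
    ∀ s : List ℕ × List (ℕ × ℕ), Inv e k ρ U x0 s →
      Inv e k ρ U x0 (L.foldl (fun s _ => stp e F ρ s) s) ∧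
      (L.foldl (fun s _ => stp e F ρ s) s).1.length ≤ s.1.length - L.length := by
  induction L with
  | nil => intro s hs; exact ⟨hs, le_rfl⟩
  | cons b L ih =>
    intro s hs
    rw [List.foldl_cons]
    by_cases hne : s.1 = []
    · have hstp : stp e F ρ s = s := by
        unfold stp
        rw [if_pos hne]
      rw [hstp]
      refine ⟨(ih s hs).1, ?_⟩
      have h := (ih s hs).2
      have h0 : s.1.length = 0 := by rw [hne]; rfl
      omega
    · obtain ⟨hs1, hs2⟩ := step h1 h2 h3 he hA hB hρ hU hs hne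
      refine ⟨(ih _ hs1).1, ?_⟩
      have h := (ih _ hs1).2
      rw [List.length_cons]
      omega

theorem start {e : Env} {k ρ : ℕ} {U : List ℕ} {x0 : List (ℕ × ℕ)} (hx : Good e x0) :
    Inv e k ρ U x0 (U, x0) :=
  ⟨fun _ hu => hu, hx, fun _ _ => rfl, fun _ _ hv hv' => absurd hv hv', fun _ _ hv hv' => absurd hv hv'⟩

end LopAux

theorem tLop (h1 : S_Hlf) (h2 : S_Src) (h3 : S_Cmp) : S_Lop := by
  intro e F k r ρ he hA hB hρ
  constructor
  · intro Y x hY hx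
    have h := (LopAux.loop h1 h2 h3 he hA hB hρ hY Y (Y, x) (LopAux.start hx)).1
    exact ⟨h.good, h.out⟩
  · intro Y x hY hx hrank v hv
    obtain ⟨h, hl⟩ := LopAux.loop h1 h2 h3 he hA hB hρ hY Y (Y, x) (LopAux.start hx)
    refine h.eqn hrank v hv ?_
    have h0 : (Y.foldl (fun s _ => stp e F ρ s) (Y, x)).1.length = 0 := by
      have e0 : (Y, x).1.length - Y.length = 0 := Nat.sub_self _
      omega
    rw [List.length_eq_zero_iff] at h0
    rw [h0]
    exact List.not_mem_nil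

end Pool.Agent.Lib.MP_c29043_lc.CR
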