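import Pool.Agent.Lib.MP_c29043_lc.CR.Spec

/-!
# MP_c29043_lc, project CR: the nodes which reach `v` inside `R`
-/

set_option autoImplicit false

open N68a2faeb N487b59b3 Pool.Agent.Lib.PolyTime

namespace Pool.Agent.Lib.MP_c29043_lc.CR

open Pool.Agent.Lib.MP_c29043_lc

namespace PreAux

theorem stab (s : ℕ → Finset ℕ) (n : ℕ) (h1 : ∀ j, s j ⊆ s (j + 1)) (h2 : ∀ j, (s j).card ≤ n)
    (h0 : (s 0).Nonempty) (h3 : ∀ j, s (j + 1) = s j → s (j + 2) = s (j + 1)) : s (n + 1) = s n := by
  by_contra hne
  have h4 : ∀ j, j ≤ n → s (j + 1) ≠ s j := by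
    intro j hj he
    apply hne
    have h5 : ∀ i, s (j + i + 1) = s (j + i) := by
      intro i
      induction i with
      | zero => exact he
      | succ i ih => exact h3 _ ih
    have h6 := h5 (n - j)
    rwa [show j + (n - j) = n by omega] at h6
  have h5 : ∀ j, j ≤ n → j + 1 ≤ (s j).card := by
    intro j
    induction j with
    | zero => intro _; exact h0.card_pos
    | succ j ih =>
      intro hj
      have h6 := Finset.card_lt_card
        (Finset.ssubset_iff_subset_ne.2 ⟨h1 j, fun h => h4 j (by omega) h.symm⟩)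
      have h7 := ih (by omega)
      omega
  have h6 := h5 n le_rfl
  have h7 := h2 n
  omega

theorem mem_pstep (A : List ((ℕ × ℕ) × ℕ)) (R S : List ℕ) (u : ℕ) :
    u ∈ pstep A R S ↔ u ∈ R ∧ (u ∈ S ∨ ∃ e ∈ A, e.1.1 = u ∧ e.1.2 ∈ S) := by
  unfold pstep
  rw [List.mem_filter, Bool.or_eq_true, List.any_eq_true]
  simp only [Bool.and_eq_true, decide_eq_true_eq]

theorem foldl_iter (A : List ((ℕ × ℕ) × ℕ)) (R : List ℕ) (L : List ℕ) (S : List ℕ) :
    L.foldl (fun S _ => pstep A R S) S = (pstep A R)^[L.length] S := by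
  induction L generalizing S with
  | nil => rfl
  | cons a L ih => rw [List.foldl_cons, ih, List.length_cons, Function.iterate_succ_apply]

theorem iter_filter (A : List ((ℕ × ℕ) × ℕ)) (R : List ℕ) (q : ℕ → Bool) (n : ℕ) :
    ∃ p : ℕ → Bool, (pstep A R)^[n] (R.filter q) = R.filter p := by
  cases n with
  | zero => exact ⟨q, rfl⟩
  | succ n => rw [Function.iterate_succ_apply']; exact ⟨_, rfl⟩

end PreAux

/-- **Pre** -/
theorem tPre : S_Pre := by
  intro A R v
  refine ⟨?_, ?_⟩
  · unfold pre
    rw [PreAux.foldl_iter]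
    exact PreAux.iter_filter A R _ _
  · intro hv u
    have hpre : pre A R v = (pstep A R)^[R.length] (R.filter fun u => decide (u = v)) := by
      unfold pre
      exact PreAux.foldl_iter A R R _
    rw [hpre]
    set Q : ℕ → List ℕ := fun j => (pstep A R)^[j] (R.filter fun u => decide (u = v)) with hQ
    have hQs : ∀ j, Q (j + 1) = pstep A R (Q j) := fun j => by
      rw [hQ]; exact Function.iterate_succ_apply' _ _ _
    have hQ0 : ∀ w, w ∈ Q 0 ↔ w ∈ R ∧ w = v := fun w => by
      rw [hQ]
      change w ∈ R.filter (fun u => decide (u = v)) ↔ _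
      rw [List.mem_filter, decide_eq_true_eq]
    have hR : ∀ j w, w ∈ Q j → w ∈ R := by
      intro j w hw
      cases j with
      | zero => exact ((hQ0 w).1 hw).1
      | succ j => rw [hQs, PreAux.mem_pstep] at hw; exact hw.1
    have hmono : ∀ j w, w ∈ Q j → w ∈ Q (j + 1) := by
      intro j w hw
      rw [hQs, PreAux.mem_pstep]
      exact ⟨hR j w hw, Or.inl hw⟩
    have hsound : ∀ j w, w ∈ Q j → Relation.ReflTransGen (Adj A {w | w ∈ R}) w v := by
      intro j
      induction j with
      | zero =>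
        intro w hw
        rw [((hQ0 w).1 hw).2]
      | succ j ih =>
        intro w hw
        have hwR := hR _ _ hw
        rw [hQs, PreAux.mem_pstep] at hw
        rcases hw.2 with h | ⟨e, he, h1, h2⟩
        · exact ih w h
        · refine Relation.ReflTransGen.head (b := e.1.2) ?_ (ih _ h2)
          refine ⟨hwR, hR _ _ h2, e.2, ?_⟩
          rw [← h1]
          exact he
    have hst := PreAux.stab (fun j => (Q j).toFinset) R.length
      (fun j w hw => List.mem_toFinset.2 (hmono j w (List.mem_toFinset.1 hw)))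
      (fun j => (Finset.card_le_card (fun w hw =>
        List.mem_toFinset.2 (hR j w (List.mem_toFinset.1 hw)))).trans (List.toFinset_card_le R))
      ⟨v, List.mem_toFinset.2 ((hQ0 v).2 ⟨hv, rfl⟩)⟩
      (by
        intro j hj
        have hj' : ∀ w, w ∈ Q (j + 1) ↔ w ∈ Q j := fun w => by
          have := Finset.ext_iff.1 hj w
          rwa [List.mem_toFinset, List.mem_toFinset] at this
        ext w
        have e1 : w ∈ Q (j + 1) ↔ w ∈ R ∧ (w ∈ Q j ∨ ∃ e ∈ A, e.1.1 = w ∧ e.1.2 ∈ Q j) := by
          rw [hQs j, PreAux.mem_pstep]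
        have e2 : w ∈ Q (j + 2) ↔
            w ∈ R ∧ (w ∈ Q (j + 1) ∨ ∃ e ∈ A, e.1.1 = w ∧ e.1.2 ∈ Q (j + 1)) := by
          rw [hQs (j + 1), PreAux.mem_pstep]
        rw [List.mem_toFinset, List.mem_toFinset]
        refine e2.trans (Iff.trans ?_ e1.symm)
        simp only [hj'])
    have hcl : ∀ w, w ∈ Q (R.length + 1) → w ∈ Q R.length := fun w hw => by
      have h1 := Finset.ext_iff.1 hst w
      rw [List.mem_toFinset, List.mem_toFinset] at h1
      exact h1.1 hw
    have hall : ∀ j, v ∈ Q j := by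
      intro j
      induction j with
      | zero => exact (hQ0 v).2 ⟨hv, rfl⟩
      | succ j ih => exact hmono j v ih
    constructor
    · intro hu
      exact ⟨hR _ _ hu, hsound _ _ hu⟩
    · rintro ⟨-, hu⟩
      change u ∈ Q R.length
      induction hu using Relation.ReflTransGen.head_induction_on with
      | refl => exact hall _
      | head h1 _ ih =>
        obtain ⟨ha, hb, w, hw⟩ := h1
        refine hcl _ ?_
        rw [hQs, PreAux.mem_pstep]
        exact ⟨ha, Or.inr ⟨_, hw, rfl, ih⟩⟩

end Pool.Agent.Lib.MP_c29043_lc.CR
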