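import Pool.Agent.Lib.MP_c29043_lc.CR.Spec

/-!
# MP_c29043_lc, project CR: running time of the simple functions
-/

set_option autoImplicit false

open N68a2faeb N487b59b3 Pool.Agent.Lib.PolyTime

namespace Pool.Agent.Lib.MP_c29043_lc.CR

open Pool.Agent.Lib.MP_c29043_lc

namespace PtAAux

variable {α : Type} [N487b59b3 α]

theorem half_eq (n : ℕ) : ofBits (bitsOf n).tail = n / 2 := by
  have h1 := ofBits_tail (bitsOf n)
  rw [ofBits_bitsOf] at h1
  cases h : (bitsOf n).headD false
  · rw [h, cond_false] at h1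
    omega
  · rw [h, cond_true] at h1
    omega

theorem pt_half {f : α → ℕ} (hf : IsPolyTime f) : IsPolyTime (fun a => f a / 2) :=
  pt_congr (pt_ofBits (pt_tail (pt_bitsOf hf))) (fun _ => half_eq _)

theorem foldl_le (l : List Bool) (n : ℕ) : l.foldl (fun s _ => s / 2) n ≤ n := by
  induction l generalizing n with
  | nil => exact le_rfl
  | cons b l ih =>
    rw [List.foldl_cons]
    exact (ih _).trans (Nat.div_le_self _ _)

@[local fun_prop]
theorem pt_hlf {L : α → List Bool} {n : α → ℕ} (hL : IsPolyTime L) (hn : IsPolyTime n) :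
    IsPolyTime (fun a => hlf (L a) (n a)) := by
  obtain ⟨q, hq⟩ := exists_size hn
  unfold hlf
  refine pt_foldl (g := fun (_ : α) (s : ℕ) (_ : Bool) => s / 2) (pt_half (by fun_prop)) hL hn q ?_
  intro a k
  exact (sz_mono (foldl_le _ _)).trans (hq a)

@[local fun_prop]
theorem pt_TA {A : α → List ((ℕ × ℕ) × ℕ)} {L : α → List Bool} {x : α → List (ℕ × ℕ)}
    {v : α → ℕ} (hA : IsPolyTime A) (hL : IsPolyTime L) (hx : IsPolyTime x)
    (hv : IsPolyTime v) : IsPolyTime (fun a => TA (A a) (L a) (x a) (v a)) := by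
  unfold TA
  have h : IsPolyTime (fun a => tab (verts (A a)) fun u =>
      vec (x a) u - hlf (L a) (vec (x a) u)) := by
    refine pt_tab (by fun_prop) (pt_sub (by fun_prop) ?_)
    exact pt_hlf (by fun_prop) (by fun_prop)
  exact pt_T hA h hv

theorem pt_rl (k : ℕ) {L : α → List Bool} (hL : IsPolyTime L) :
    IsPolyTime (fun a => rl (L a) k) := by
  induction k with
  | zero => exact pt_const []
  | succ k ih =>
    unfold rl
    exact pt_append (pt_cons (pt_const true) (pt_cons (pt_const true) hL)) ih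

end PtAAux

open PtAAux

theorem tPtA : S_PtA := by
  refine ⟨?_, ?_, ?_, ?_, ?_⟩
  · exact pt_hlf (by fun_prop) (by fun_prop)
  · exact pt_TA (by fun_prop) (by fun_prop) (by fun_prop) (by fun_prop)
  · intro k
    unfold rad
    exact pt_fst (pt_pws (pt_rl k (by fun_prop)))
  · unfold upd
    fun_prop
  · unfold res
    have h : IsPolyTime (fun p : (Env × ℕ) × (List (ℕ × ℕ) × ℕ) =>
        TA p.1.1.1 p.1.1.2.1 p.2.1 p.2.2) :=
      pt_TA (by fun_prop) (by fun_prop) (by fun_prop) (by fun_prop)
    refine pt_and (pt_le (by fun_prop) (pt_add h (by fun_prop)))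
      (pt_le h (pt_add (by fun_prop) (by fun_prop)))

end Pool.Agent.Lib.MP_c29043_lc.CR
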