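import Pool.Agent.Lib.MP_c29043_lc.CR.Spec

/-!
# MP_c29043_lc, project CR: the search for a source component runs in polynomial time
-/

set_option autoImplicit false

open N68a2faeb N487b59b3 Pool.Agent.Lib.PolyTime

namespace Pool.Agent.Lib.MP_c29043_lc.CR

open Pool.Agent.Lib.MP_c29043_lc

namespace PtBAux

variable {α β : Type} [N487b59b3 α] [N487b59b3 β]

theorem sz_filter_le (l : List β) (p : β → Bool) : sz (l.filter p) ≤ sz l := by
  induction l with
  | nil => exact le_rfl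
  | cons b l ih =>
    rw [List.filter_cons]
    cases h : p b
    · rw [sz_cons]
      simp only [Bool.false_eq_true, if_false]
      omega
    · simp only [if_true]
      rw [sz_cons, sz_cons]
      omega

theorem pt_pstep {A : α → List ((ℕ × ℕ) × ℕ)} {R S : α → List ℕ} (hA : IsPolyTime A)
    (hR : IsPolyTime R) (hS : IsPolyTime S) : IsPolyTime (fun a => pstep (A a) (R a) (S a)) := by
  unfold pstep
  refine pt_filter (p := fun a u => decide (u ∈ S a) ||
    (A a).any fun e => decide (e.1.1 = u) && decide (e.1.2 ∈ S a)) hR ?_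
  refine pt_or (pt_mem pt_snd' (pt_comp hS pt_fst')) ?_
  refine pt_any (l := fun x : α × ℕ => A x.1)
    (p := fun (x : α × ℕ) e => decide (e.1.1 = x.2) && decide (e.1.2 ∈ S x.1)) (pt_comp hA pt_fst') ?_
  refine pt_and (pt_eq (pt_fst (pt_fst pt_snd')) (pt_snd pt_fst')) ?_
  have h1 : IsPolyTime (fun x : α × ℕ => S x.1) := pt_comp hS pt_fst'
  have h2 : IsPolyTime (fun x : (α × ℕ) × ((ℕ × ℕ) × ℕ) => S x.1.1) :=
    pt_comp (g := fun x : α × ℕ => S x.1) h1 pt_fst'
  exact pt_mem (pt_snd (pt_fst pt_snd')) h2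

theorem sz_iter_le (A : List ((ℕ × ℕ) × ℕ)) (R l S : List ℕ) (h : sz S ≤ sz R) :
    sz (l.foldl (fun S _ => pstep A R S) S) ≤ sz R := by
  induction l generalizing S with
  | nil => exact h
  | cons b l ih =>
    rw [List.foldl_cons]
    exact ih _ (sz_filter_le _ _)

theorem sz_pre_le (A : List ((ℕ × ℕ) × ℕ)) (R : List ℕ) (v : ℕ) : sz (pre A R v) ≤ sz R :=
  sz_iter_le A R R _ (sz_filter_le _ _)

theorem pt_pre {A : α → List ((ℕ × ℕ) × ℕ)} {R : α → List ℕ} {v : α → ℕ} (hA : IsPolyTime A)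
    (hR : IsPolyTime R) (hv : IsPolyTime v) : IsPolyTime (fun a => pre (A a) (R a) (v a)) := by
  obtain ⟨q, hq⟩ := exists_size hR
  unfold pre
  refine pt_foldl (g := fun a S (_ : ℕ) => pstep (A a) (R a) S) ?_ hR ?_ q ?_
  · exact pt_pstep (pt_comp hA pt_fst') (pt_comp hR pt_fst') (pt_fst pt_snd')
  · exact pt_filter (p := fun a u => decide (u = v a)) hR (pt_eq pt_snd' (pt_comp hv pt_fst'))
  · intro a k
    exact (sz_iter_le _ _ _ _ (sz_filter_le _ _)).trans (hq a)

theorem sz_srcIter_le (A : List ((ℕ × ℕ) × ℕ)) (R l X : List ℕ) (h : sz X ≤ sz R) :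
    sz (l.foldl (fun X v => if (pre A R v).length < X.length then pre A R v else X) X) ≤ sz R := by
  induction l generalizing X with
  | nil => exact h
  | cons b l ih =>
    rw [List.foldl_cons]
    apply ih
    by_cases hb : (pre A R b).length < X.length
    · rw [if_pos hb]
      exact sz_pre_le A R b
    · rw [if_neg hb]
      exact h

end PtBAux

open PtBAux in
theorem tPtB : S_PtB := by
  unfold S_PtB
  have hA : IsPolyTime (fun p : List ((ℕ × ℕ) × ℕ) × List ℕ => p.1) := pt_fst'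
  have hR : IsPolyTime (fun p : List ((ℕ × ℕ) × ℕ) × List ℕ => p.2) := pt_snd'
  obtain ⟨q, hq⟩ := exists_size hR
  unfold src
  refine pt_foldl (g := fun (p : List ((ℕ × ℕ) × ℕ) × List ℕ) (X : List ℕ) (v : ℕ) =>
    if (pre p.1 p.2 v).length < X.length then pre p.1 p.2 v else X) ?_ hR ?_ q ?_
  · have h1 : IsPolyTime (fun x : (List ((ℕ × ℕ) × ℕ) × List ℕ) × (List ℕ × ℕ) =>
        pre x.1.1 x.1.2 x.2.2) := pt_pre (pt_fst pt_fst') (pt_snd pt_fst') (pt_snd pt_snd')
    have h2 : IsPolyTime (fun x : (List ((ℕ × ℕ) × ℕ) × List ℕ) × (List ℕ × ℕ) => x.2.1) :=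
      pt_fst pt_snd'
    exact pt_ite (pt_lt (pt_length h1) (pt_length h2)) h1 h2
  · exact pt_pre hA hR (pt_headD 0 hR)
  · intro a k
    exact (sz_srcIter_le _ _ _ _ (sz_pre_le _ _ _)).trans (hq a)

end Pool.Agent.Lib.MP_c29043_lc.CR
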