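import Pool.Agent.Lib.MP_c29043_lc.CR.Spec

/-!
# MP_c29043_lc, project CR: the bisection runs in polynomial time
-/

set_option autoImplicit false

open N68a2faeb N487b59b3 Pool.Agent.Lib.PolyTime

namespace Pool.Agent.Lib.MP_c29043_lc.CR

open Pool.Agent.Lib.MP_c29043_lc

namespace PtCAux

theorem sz_sum_le (l : List ℕ) : sz l.sum ≤ sz l := by
  induction l with
  | nil =>
    have h3 : sz (0 : ℕ) = 0 := by rw [sz_nat, bitsOf_zero]; rfl
    rw [List.sum_nil, h3]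
    exact Nat.zero_le _
  | cons b l ih =>
    rw [List.sum_cons, sz_cons]
    have h := sz_add_le b l.sum
    have h1 : max (sz b) (sz l.sum) ≤ sz b + sz l.sum := max_le (by omega) (by omega)
    omega

theorem fold_le (L : List ℕ) (Q : ℕ → ℕ → Prop) [∀ c p, Decidable (Q c p)] (c : ℕ) :
    L.foldl (fun c p => if Q c p then c + p else c) c ≤ c + L.sum := by
  induction L generalizing c with
  | nil => simp
  | cons p L ih =>
    rw [List.foldl_cons, List.sum_cons]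
    refine (ih _).trans ?_
    split_ifs <;> omega

theorem take_sum_le (l : List ℕ) (k : ℕ) : (l.take k).sum ≤ l.sum := by
  have h := List.sum_append (l₁ := l.take k) (l₂ := l.drop k)
  rw [List.take_append_drop] at h
  omega

end PtCAux

open PtCAux

theorem tPtC (h1 : S_PtA) : S_PtC := by
  obtain ⟨-, hTA0, -, hU0, -⟩ := h1
  intro F hF
  have hU : IsPolyTime (fun w : ((Env × ℕ) × (List ℕ × List (ℕ × ℕ))) × ℕ =>
      upd w.1.1.1.1 w.1.2.2 w.1.1.2 w.2) :=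
    pt_comp (g := fun p : (List ((ℕ × ℕ) × ℕ) × List (ℕ × ℕ)) × (ℕ × ℕ) =>
        upd p.1.1 p.1.2 p.2.1 p.2.2)
      (f := fun w : ((Env × ℕ) × (List ℕ × List (ℕ × ℕ))) × ℕ =>
        ((w.1.1.1.1, w.1.2.2), (w.1.1.2, w.2))) hU0 (by fun_prop)
  have hG : IsPolyTime (fun w : ((Env × ℕ) × (List ℕ × List (ℕ × ℕ))) × ℕ =>
      F (w.1.1.1, (w.1.2.1, upd w.1.1.1.1 w.1.2.2 w.1.1.2 w.2))) :=
    pt_comp hF (pt_pair (by fun_prop) (pt_pair (by fun_prop) hU))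
  have hT : IsPolyTime (fun w : ((Env × ℕ) × (List ℕ × List (ℕ × ℕ))) × ℕ =>
      TA w.1.1.1.1 w.1.1.1.2.1
        (F (w.1.1.1, (w.1.2.1, upd w.1.1.1.1 w.1.2.2 w.1.1.2 w.2))) w.1.1.2) :=
    pt_comp (g := fun p : (List ((ℕ × ℕ) × ℕ) × List Bool) × (List (ℕ × ℕ) × ℕ) =>
        TA p.1.1 p.1.2 p.2.1 p.2.2)
      (f := fun w : ((Env × ℕ) × (List ℕ × List (ℕ × ℕ))) × ℕ =>
        ((w.1.1.1.1, w.1.1.1.2.1),
          (F (w.1.1.1, (w.1.2.1, upd w.1.1.1.1 w.1.2.2 w.1.1.2 w.2)), w.1.1.2)))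
      hTA0 (pt_pair (by fun_prop) (pt_pair hG (by fun_prop)))
  have hT2 : IsPolyTime (fun w : ((Env × ℕ) × (List ℕ × List (ℕ × ℕ))) × (ℕ × ℕ) =>
      TA w.1.1.1.1 w.1.1.1.2.1
        (F (w.1.1.1, (w.1.2.1, upd w.1.1.1.1 w.1.2.2 w.1.1.2 (w.2.1 + w.2.2)))) w.1.1.2) :=
    pt_comp (f := fun w : ((Env × ℕ) × (List ℕ × List (ℕ × ℕ))) × (ℕ × ℕ) =>
      (w.1, w.2.1 + w.2.2)) hT (by fun_prop)
  have hl : IsPolyTime (fun p : (Env × ℕ) × (List ℕ × List (ℕ × ℕ)) => p.1.1.2.2.1) := by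
    fun_prop
  obtain ⟨q, hq⟩ := exists_size hl
  have hB : IsPolyTime (fun p : (Env × ℕ) × (List ℕ × List (ℕ × ℕ)) =>
      bic p.1.1 (fun q => F (p.1.1, q)) p.1.2 p.2.1 p.2.2) := by
    unfold bic
    refine pt_foldl (g := fun (p : (Env × ℕ) × (List ℕ × List (ℕ × ℕ))) (c b : ℕ) =>
      if c + b ≤ TA p.1.1.1 p.1.1.2.1
        (F (p.1.1, (p.2.1, upd p.1.1.1 p.2.2 p.1.2 (c + b)))) p.1.2 then c + b else c)
      (pt_ite (pt_le (by fun_prop) hT2) (by fun_prop) (by fun_prop)) hl (pt_const 0) q ?_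
    intro a k
    refine (sz_mono (fold_le _ _ 0)).trans ?_
    rw [zero_add]
    exact (sz_mono (take_sum_le _ _)).trans ((sz_sum_le _).trans (hq a))
  unfold bis
  exact pt_comp (f := fun p : (Env × ℕ) × (List ℕ × List (ℕ × ℕ)) =>
    (p, bic p.1.1 (fun q => F (p.1.1, q)) p.1.2 p.2.1 p.2.2)) hG (pt_pair pt_id hB)

end Pool.Agent.Lib.MP_c29043_lc.CR
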