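import Pool.Agent.Lib.MP_c29043_lc.CR.Spec

/-!
# MP_c29043_lc, project CR: running time of the component step
-/

set_option autoImplicit false

open N68a2faeb N487b59b3 Pool.Agent.Lib.PolyTime

namespace Pool.Agent.Lib.MP_c29043_lc.CR

open Pool.Agent.Lib.MP_c29043_lc

theorem tPtD (h1 : S_PtA) (h2 : S_PtC) : S_PtD := by
  intro F hF
  have hb := h2 F hF
  obtain ⟨-, -, -, -, hres⟩ := h1
  have hm : IsPolyTime (fun p : (Env × ℕ) × (List ℕ × List (ℕ × ℕ)) =>
      p.2.1.map fun z => bis p.1.1 (fun q => F (p.1.1, q)) z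
        (p.2.1.filter fun u => decide (u ≠ z)) p.2.2) := by
    refine pt_map (l := fun p : (Env × ℕ) × (List ℕ × List (ℕ × ℕ)) => p.2.1)
      (f := fun p z => bis p.1.1 (fun q => F (p.1.1, q)) z
        (p.2.1.filter fun u => decide (u ≠ z)) p.2.2) (by fun_prop) ?_
    have hi : IsPolyTime (fun q : ((Env × ℕ) × (List ℕ × List (ℕ × ℕ))) × ℕ =>
        (((q.1.1.1, q.2), (q.1.2.1.filter fun u => decide (u ≠ q.2), q.1.2.2)) :
          (Env × ℕ) × (List ℕ × List (ℕ × ℕ)))) := by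
      refine pt_pair (by fun_prop) (pt_pair ?_ (by fun_prop))
      refine pt_filter (l := fun q : ((Env × ℕ) × (List ℕ × List (ℕ × ℕ))) × ℕ => q.1.2.1)
        (p := fun q u => decide (u ≠ q.2)) (by fun_prop) ?_
      refine pt_congr (pt_not (pt_eq (f := fun r : (((Env × ℕ) × (List ℕ × List (ℕ × ℕ))) × ℕ) × ℕ => r.2)
        (g := fun r => r.1.2) (by fun_prop) (by fun_prop))) ?_
      intro r
      simp
    exact pt_comp (g := fun p : (Env × ℕ) × (List ℕ × List (ℕ × ℕ)) =>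
      bis p.1.1 (fun q => F (p.1.1, q)) p.1.2 p.2.1 p.2.2) hb hi
  have hf : IsPolyTime (fun p : (Env × ℕ) × (List ℕ × List (ℕ × ℕ)) =>
      (p.2.1.map fun z => bis p.1.1 (fun q => F (p.1.1, q)) z
        (p.2.1.filter fun u => decide (u ≠ z)) p.2.2).filter
        fun y => p.2.1.all fun v => res p.1.1 p.1.2 y v) := by
    refine pt_filter (p := fun (p : (Env × ℕ) × (List ℕ × List (ℕ × ℕ))) y =>
      p.2.1.all fun v => res p.1.1 p.1.2 y v) hm ?_
    refine pt_all (l := fun q : ((Env × ℕ) × (List ℕ × List (ℕ × ℕ))) × List (ℕ × ℕ) => q.1.2.1)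
      (p := fun q v => res q.1.1.1 q.1.1.2 q.2 v) (by fun_prop) ?_
    have hi : IsPolyTime (fun r : (((Env × ℕ) × (List ℕ × List (ℕ × ℕ))) × List (ℕ × ℕ)) × ℕ =>
        (((r.1.1.1.1, r.1.1.1.2), (r.1.2, r.2)) : (Env × ℕ) × (List (ℕ × ℕ) × ℕ))) := by
      fun_prop
    exact pt_comp (g := fun p : (Env × ℕ) × (List (ℕ × ℕ) × ℕ) => res p.1.1 p.1.2 p.2.1 p.2.2) hres hi
  have hl := pt_headD ([] : List (ℕ × ℕ)) (pt_append hf (pt_cons
    (f := fun p : (Env × ℕ) × (List ℕ × List (ℕ × ℕ)) => p.2.2) (by fun_prop)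
    (pt_const ([] : List (List (ℕ × ℕ))))))
  refine pt_congr hl ?_
  intro p
  unfold cmp
  generalize ((p.2.1.map fun z => bis p.1.1 (fun q => F (p.1.1, q)) z
        (p.2.1.filter fun u => decide (u ≠ z)) p.2.2).filter
        fun y => p.2.1.all fun v => res p.1.1 p.1.2 y v) = L
  cases L <;> rfl

end Pool.Agent.Lib.MP_c29043_lc.CR
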