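import Pool.Agent.Lib.MP_c29043_lc.CR.Spec

/-!
# MP_c29043_lc, project CR: running time of the loop over the strong components
-/

set_option autoImplicit false

open N68a2faeb N487b59b3 Pool.Agent.Lib.PolyTime

namespace Pool.Agent.Lib.MP_c29043_lc.CR

open Pool.Agent.Lib.MP_c29043_lc

namespace PtEAux

theorem sz_filter_le {β : Type} [N487b59b3 β] (p : β → Bool) (l : List β) :
    sz (l.filter p) ≤ sz l := by
  induction l with
  | nil => exact le_rfl
  | cons b l ih =>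
    rw [List.filter_cons, sz_cons]
    split_ifs
    · rw [sz_cons]; omega
    · omega

/-- the argument of one step: the parameters, the current pair, an element of the list -/
abbrev Arg : Type := ((Env × ℕ) × (List ℕ × List (ℕ × ℕ))) × ((List ℕ × List (ℕ × ℕ)) × ℕ)

theorem pt_src (h1 : S_PtB) : IsPolyTime (fun p : Arg => src p.1.1.1.1 p.2.1.1) :=
  pt_comp (g := fun p : List ((ℕ × ℕ) × ℕ) × List ℕ => src p.1 p.2)
    (f := fun p : Arg => (p.1.1.1.1, p.2.1.1)) h1 (by fun_prop)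

theorem pt_cmp (h1 : S_PtB) (h2 : S_PtD) (F : Env × (List ℕ × List (ℕ × ℕ)) → List (ℕ × ℕ))
    (hF : IsPolyTime F) : IsPolyTime (fun p : Arg =>
      cmp p.1.1.1 (fun q => F (p.1.1.1, q)) p.1.1.2 (src p.1.1.1.1 p.2.1.1) p.2.1.2) := by
  have h3 := pt_src h1
  exact pt_comp (g := fun p : (Env × ℕ) × (List ℕ × List (ℕ × ℕ)) =>
      cmp p.1.1 (fun q => F (p.1.1, q)) p.1.2 p.2.1 p.2.2)
    (f := fun p : Arg => (p.1.1, (src p.1.1.1.1 p.2.1.1, p.2.1.2))) (h2 F hF)
    (pt_pair (by fun_prop) (pt_pair h3 (by fun_prop)))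

theorem pt_stp (h1 : S_PtB) (h2 : S_PtD) (F : Env × (List ℕ × List (ℕ × ℕ)) → List (ℕ × ℕ))
    (hF : IsPolyTime F) : IsPolyTime (fun p : Arg =>
      stp p.1.1.1 (fun q => F (p.1.1.1, q)) p.1.1.2 p.2.1) := by
  have h3 := pt_src h1
  have h4 := pt_cmp h1 h2 F hF
  unfold stp
  have e1 : IsPolyTime (fun p : Arg => decide (p.2.1.1 = [])) := by fun_prop
  have e2 : IsPolyTime (fun p : Arg => p.2.1) := by fun_prop
  have e3 : IsPolyTime (fun p : Arg => p.2.1.1) := by fun_prop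
  have e4 : IsPolyTime (fun q : Arg × ℕ => src q.1.1.1.1.1 q.1.2.1.1) :=
    pt_comp (g := fun p : Arg => src p.1.1.1.1 p.2.1.1) h3 (by fun_prop)
  have e5 : IsPolyTime (fun q : Arg × ℕ => decide (q.2 ∉ src q.1.1.1.1.1 q.1.2.1.1)) := by
    have e6 : IsPolyTime (fun q : Arg × ℕ => !decide (q.2 ∈ src q.1.1.1.1.1 q.1.2.1.1)) :=
      pt_not (pt_mem (by fun_prop) e4)
    exact pt_congr e6 fun q => by simp
  have e7 : IsPolyTime (fun p : Arg => p.2.1.1.filter fun u => decide (u ∉ src p.1.1.1.1 p.2.1.1)) :=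
    pt_filter e3 e5
  have e8 : IsPolyTime (fun q : Arg × ℕ => vec (cmp q.1.1.1.1 (fun r => F (q.1.1.1.1, r)) q.1.1.1.2
      (src q.1.1.1.1.1 q.1.2.1.1) q.1.2.1.2) q.2) :=
    pt_vec (pt_comp (g := fun p : Arg =>
      cmp p.1.1.1 (fun q => F (p.1.1.1, q)) p.1.1.2 (src p.1.1.1.1 p.2.1.1) p.2.1.2) h4
      (by fun_prop)) (by fun_prop)
  have e9 : IsPolyTime (fun p : Arg => tab (verts p.1.1.1.1) fun v => min p.1.1.1.2.2.2
      (vec (cmp p.1.1.1 (fun q => F (p.1.1.1, q)) p.1.1.2 (src p.1.1.1.1 p.2.1.1) p.2.1.2) v)) :=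
    pt_tab (by fun_prop) (pt_min (by fun_prop) e8)
  exact pt_ite e1 e2 (pt_pair e7 e9)

end PtEAux

open PtEAux in
theorem tPtE (h1 : S_PtB) (h2 : S_PtD) : S_PtE := by
  intro F hF
  have hT : IsPolyTime (fun a : (Env × ℕ) × (List ℕ × List (ℕ × ℕ)) =>
      tab (verts a.1.1.1) fun _ => a.1.1.2.2.2) := by fun_prop
  obtain ⟨q, hq⟩ := exists_size hT
  unfold lop
  refine pt_foldl (g := fun (a : (Env × ℕ) × (List ℕ × List (ℕ × ℕ))) s (_ : ℕ) =>
      stp a.1.1 (fun q => F (a.1.1, q)) a.1.2 s) (l := fun a => a.2.1) (s := fun a => a.2)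
    (pt_stp h1 h2 F hF) (by fun_prop) (by fun_prop) (Polynomial.X + q) ?_
  intro a k
  have key : ∀ (l : List ℕ) (s : List ℕ × List (ℕ × ℕ)), sz s.1 ≤ sz a.2.1 →
      sz s.2 ≤ max (sz a.2.2) (sz (tab (verts a.1.1.1) fun _ => a.1.1.2.2.2)) →
      sz (l.foldl (fun s (_ : ℕ) => stp a.1.1 (fun q => F (a.1.1, q)) a.1.2 s) s) ≤
        2 * sz a.2.1 + 1 +
          max (sz a.2.2) (sz (tab (verts a.1.1.1) fun _ => a.1.1.2.2.2)) := by
    intro l
    induction l with
    | nil =>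
      intro s hs1 hs2
      rw [List.foldl_nil, ← Prod.mk.eta (p := s), sz_pair]
      omega
    | cons b l ih =>
      intro s hs1 hs2
      rw [List.foldl_cons]
      by_cases hs : s.1 = []
      · have e : stp a.1.1 (fun q => F (a.1.1, q)) a.1.2 s = s := by
          unfold stp
          rw [if_pos hs]
        rw [e]
        exact ih s hs1 hs2
      · apply ih
        · unfold stp
          rw [if_neg hs]
          exact (sz_filter_le _ _).trans hs1
        · unfold stp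
          rw [if_neg hs]
          exact (sz_tab_mono _ fun v => min_le_left _ _).trans (le_max_right _ _)
  refine (key _ _ le_rfl (le_max_left _ _)).trans ?_
  have h3 := hq a
  have h4 : sz a = 2 * sz a.1 + 1 + sz a.2 := by rw [← sz_pair]
  have h5 : sz a.2 = 2 * sz a.2.1 + 1 + sz a.2.2 := by rw [← sz_pair]
  rw [Polynomial.eval_add, Polynomial.eval_X]
  omega

end Pool.Agent.Lib.MP_c29043_lc.CR
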