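import Pool.Agent.Lib.MP_c29043_lc.CR.Spec

/-!
# MP_c29043_lc, project CR, module PtF: the recursion in polynomial time
-/

set_option autoImplicit false

open N68a2faeb N487b59b3 Pool.Agent.Lib.PolyTime

namespace Pool.Agent.Lib.MP_c29043_lc.CR

open Pool.Agent.Lib.MP_c29043_lc

theorem tPtF (h1 : S_PtA) (h2 : S_PtE) : S_PtF := by
  intro k
  induction k with
  | zero =>
    have h : IsPolyTime (fun p : Env × (List ℕ × List (ℕ × ℕ)) => p.2.2) := pt_snd (pt_snd pt_id)
    exact h
  | succ k ih =>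
    have hlop := h2 (fun q => sol q.1 k q.2) ih
    have hrad := h1.2.2.1 (k + 1)
    have he : IsPolyTime (fun p : Env × (List ℕ × List (ℕ × ℕ)) => p.1) := pt_fst pt_id
    have hL : IsPolyTime (fun p : Env × (List ℕ × List (ℕ × ℕ)) => p.1.2.1) := pt_fst (pt_snd he)
    have hr : IsPolyTime (fun p : Env × (List ℕ × List (ℕ × ℕ)) => rad p.1.2.1 (k + 1)) :=
      pt_comp (g := fun L : List Bool => rad L (k + 1))
        (f := fun p : Env × (List ℕ × List (ℕ × ℕ)) => p.1.2.1) hrad hL
    have hp : IsPolyTime (fun p : Env × (List ℕ × List (ℕ × ℕ)) => p.2) := pt_snd pt_id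
    have harg : IsPolyTime (fun p : Env × (List ℕ × List (ℕ × ℕ)) => ((p.1, rad p.1.2.1 (k + 1)), p.2)) :=
      pt_pair (pt_pair he hr) hp
    have h := pt_snd (pt_comp hlop harg)
    exact h

end Pool.Agent.Lib.MP_c29043_lc.CR
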