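import Pool.Agent.Lib.MP_c29043_lc.CR.Spec

/-!
# MP_c29043_lc, project CR: running time of the whole algorithm
-/

set_option autoImplicit false

open N68a2faeb N487b59b3 Pool.Agent.Lib.PolyTime

namespace Pool.Agent.Lib.MP_c29043_lc.CR

open Pool.Agent.Lib.MP_c29043_lc

namespace PtGAux

variable {α : Type} [N487b59b3 α]

theorem pt_hlf (h1 : S_PtA) {L : α → List Bool} {n : α → ℕ} (hL : IsPolyTime L) (hn : IsPolyTime n) :
    IsPolyTime (fun a => hlf (L a) (n a)) :=
  pt_comp (g := fun p : List Bool × ℕ => hlf p.1 p.2) (f := fun a => (L a, n a)) h1.1 (pt_pair hL hn)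

theorem pt_Ls {A : α → List ((ℕ × ℕ) × ℕ)} (hA : IsPolyTime A) : IsPolyTime (fun a => Ls (A a)) := by
  unfold Ls
  fun_prop

theorem pt_rl (K : ℕ) {L : α → List Bool} (hL : IsPolyTime L) : IsPolyTime (fun a => rl (L a) K) := by
  induction K with
  | zero => exact pt_const []
  | succ K ih =>
    unfold rl
    fun_prop

theorem pt_ml (K : ℕ) {A : α → List ((ℕ × ℕ) × ℕ)} (hA : IsPolyTime A) :
    IsPolyTime (fun a => ml (A a) K) := by
  have h := pt_rl K (pt_Ls hA)
  unfold ml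
  fun_prop

theorem pt_Mf (K : ℕ) {A : α → List ((ℕ × ℕ) × ℕ)} (hA : IsPolyTime A) :
    IsPolyTime (fun a => Mf (A a) K) := by
  have h := pt_ml K hA
  unfold Mf
  fun_prop

theorem pt_scl {M : α → ℕ} {A : α → List ((ℕ × ℕ) × ℕ)} (hM : IsPolyTime M) (hA : IsPolyTime A) :
    IsPolyTime (fun a => scl (M a) (A a)) := by
  unfold scl
  fun_prop

theorem pt_env (K : ℕ) {A : α → List ((ℕ × ℕ) × ℕ)} (hA : IsPolyTime A) :
    IsPolyTime (fun a => env (A a) K) := by
  have h := pt_Mf K hA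
  have h2 := pt_Ls hA
  have h3 := pt_scl h hA
  unfold env
  fun_prop

theorem pt_rnd (h1 : S_PtA) {m : α → List Bool} {M θ y : α → ℕ} (hm : IsPolyTime m) (hM : IsPolyTime M)
    (hθ : IsPolyTime θ) (hy : IsPolyTime y) : IsPolyTime (fun a => rnd (m a) (M a) (θ a) (y a)) := by
  unfold rnd
  exact pt_add (pt_hlf h1 (by fun_prop) (by fun_prop)) (pt_hlf h1 (by fun_prop) (by fun_prop))

theorem pt_gth (h1 : S_PtA) {m : α → List Bool} {M r θ : α → ℕ} {V : α → List ℕ} {y : α → List (ℕ × ℕ)}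
    (hm : IsPolyTime m) (hM : IsPolyTime M) (hr : IsPolyTime r) (hV : IsPolyTime V) (hy : IsPolyTime y)
    (hθ : IsPolyTime θ) : IsPolyTime (fun a => gth (m a) (M a) (r a) (V a) (y a) (θ a)) := by
  have a1 : IsPolyTime (fun p : α × ℕ => rnd (m p.1) (M p.1) (θ p.1) (vec (y p.1) p.2 + 2 * r p.1)) :=
    pt_rnd h1 (by fun_prop) (by fun_prop) (by fun_prop) (by fun_prop)
  have a2 : IsPolyTime (fun p : α × ℕ => rnd (m p.1) (M p.1) (θ p.1) (vec (y p.1) p.2 - (2 * r p.1 + 1))) :=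
    pt_rnd h1 (by fun_prop) (by fun_prop) (by fun_prop) (by fun_prop)
  unfold gth
  refine pt_all hV ?_
  fun_prop

theorem pt_ths {r : α → ℕ} {V : α → List ℕ} (hr : IsPolyTime r) (hV : IsPolyTime V) :
    IsPolyTime (fun a => ths (r a) (V a)) := by
  unfold ths
  refine pt_map (pt_range (by fun_prop)) ?_
  fun_prop

theorem pt_fin (h1 : S_PtA) {m : α → List Bool} {M r : α → ℕ} {V : α → List ℕ} {y : α → List (ℕ × ℕ)}
    (hm : IsPolyTime m) (hM : IsPolyTime M) (hr : IsPolyTime r) (hV : IsPolyTime V) (hy : IsPolyTime y) :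
    IsPolyTime (fun a => fin (m a) (M a) (r a) (V a) (y a)) := by
  have a1 : IsPolyTime (fun a => ((ths (r a) (V a)).filter fun θ =>
      gth (m a) (M a) (r a) (V a) (y a) θ).headD 0) := by
    refine pt_headD 0 (pt_filter (pt_ths hr hV) ?_)
    exact pt_gth h1 (by fun_prop) (by fun_prop) (by fun_prop) (by fun_prop) (by fun_prop) (by fun_prop)
  have a2 : IsPolyTime (fun p : α × ℕ => ((ths (r p.1) (V p.1)).filter fun θ =>
      gth (m p.1) (M p.1) (r p.1) (V p.1) (y p.1) θ).headD 0) :=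
    pt_comp (g := fun a => ((ths (r a) (V a)).filter fun θ =>
      gth (m a) (M a) (r a) (V a) (y a) θ).headD 0) a1 pt_fst'
  unfold fin
  refine pt_tab hV ?_
  exact pt_rnd h1 (by fun_prop) (by fun_prop) a2 (by fun_prop)

end PtGAux

open PtGAux in
theorem tPtG (h1 : S_PtA) (h2 : S_PtF) : S_PtG := by
  intro K
  have hid : IsPolyTime (fun A : List ((ℕ × ℕ) × ℕ) => A) := pt_id
  have hE := pt_env K hid
  have hrad : IsPolyTime (fun A : List ((ℕ × ℕ) × ℕ) => rad (Ls A) K) :=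
    pt_comp (g := fun L : List Bool => rad L K) (h1.2.2.1 K) (pt_Ls hid)
  have hsol : IsPolyTime (fun A : List ((ℕ × ℕ) × ℕ) =>
      sol (env A K) K (verts A, tab (verts A) fun _ => 0)) :=
    pt_comp (g := fun p : Env × (List ℕ × List (ℕ × ℕ)) => sol p.1 K p.2)
      (f := fun A : List ((ℕ × ℕ) × ℕ) => (env A K, (verts A, tab (verts A) fun _ => 0))) (h2 K)
      (by fun_prop)
  unfold alg
  exact pt_fin h1 (pt_ml K hid) (pt_Mf K hid) hrad (pt_verts hid) hsol

end Pool.Agent.Lib.MP_c29043_lc.CR
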