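import Pool.Agent.Lib.MP_c29043_lc.CR.Spec

/-!
# MP_c29043_lc, project CR: the rounded vector is a cover (module Rnd)
-/

set_option autoImplicit false

open N68a2faeb N487b59b3 Pool.Agent.Lib.PolyTime

namespace Pool.Agent.Lib.MP_c29043_lc.CR

open Pool.Agent.Lib.MP_c29043_lc

namespace RndAux

/-- the rounding function -/
def R (M θ t : ℕ) : ℕ := (t + (2 * M - θ)) / (2 * M) + (t + θ) / (2 * M)

theorem R_mono (M θ : ℕ) {s t : ℕ} (h : s ≤ t) : R M θ s ≤ R M θ t :=
  Nat.add_le_add (Nat.div_le_div_right (by omega)) (Nat.div_le_div_right (by omega))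

theorem R_small {M θ t : ℕ} (hθ : 0 < θ) (h2 : 2 * θ ≤ M) (ht : t < θ) : R M θ t = 0 := by
  unfold R
  rw [Nat.div_eq_of_lt (by omega), Nat.div_eq_of_lt (by omega)]

theorem not_dvd {M θ t : ℕ} (hθ : 0 < θ) (h2 : 2 * θ ≤ M) (h : R M θ (t - 1) = R M θ t) :
    ¬ 2 * M ∣ t + θ ∧ ¬ 2 * M ∣ t + (2 * M - θ) := by
  have hM : 0 < 2 * M := by omega
  rcases Nat.eq_zero_or_pos t with h0 | h0
  · subst h0
    refine ⟨fun hd => ?_, fun hd => ?_⟩
    · have := Nat.le_of_dvd (by omega) hd
      omega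
    · have := Nat.le_of_dvd (by omega) hd
      omega
  · refine ⟨fun hd => ?_, fun hd => ?_⟩
    · obtain ⟨k, hk⟩ := hd
      have h3 : (t + θ) / (2 * M) = k := by rw [hk, Nat.mul_div_cancel_left _ hM]
      have h4 : (t - 1 + θ) / (2 * M) < k := by
        apply Nat.div_lt_of_lt_mul
        omega
      have h5 : (t - 1 + (2 * M - θ)) / (2 * M) ≤ (t + (2 * M - θ)) / (2 * M) :=
        Nat.div_le_div_right (by omega)
      unfold R at h
      omega
    · obtain ⟨k, hk⟩ := hd
      have h3 : (t + (2 * M - θ)) / (2 * M) = k := by rw [hk, Nat.mul_div_cancel_left _ hM]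
      have h4 : (t - 1 + (2 * M - θ)) / (2 * M) < k := by
        apply Nat.div_lt_of_lt_mul
        omega
      have h5 : (t - 1 + θ) / (2 * M) ≤ (t + θ) / (2 * M) := Nat.div_le_div_right (by omega)
      unfold R at h
      omega

theorem half {D j t a b : ℕ} (hD : 0 < D) (hab : a + b = D) (ht : t ≤ D * j) (hnd : ¬ D ∣ t + a) :
    (D * j - t + b) / D + (t + a) / D = j := by
  have h1 : D * ((t + a) / D) + (t + a) % D = t + a := Nat.div_add_mod _ _
  have h2 : (t + a) % D < D := Nat.mod_lt _ hD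
  have h3 : 0 < (t + a) % D := Nat.pos_of_ne_zero fun h => hnd (Nat.dvd_of_mod_eq_zero h)
  have h4 : (t + a) / D ≤ j := by
    have h5 : (t + a) / D < j + 1 := by
      apply Nat.div_lt_of_lt_mul
      rw [Nat.mul_add, Nat.mul_one]
      have ha : 0 < b ∨ b = 0 := by omega
      rcases ha with hb | hb
      · omega
      · rcases Nat.lt_or_ge t (D * j) with h6 | h6
        · omega
        · exfalso
          apply hnd
          have h7 : t + a = D * (j + 1) := by
            rw [Nat.mul_add, Nat.mul_one]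
            omega
          rw [h7]
          exact Dvd.intro _ rfl
    omega
  have h5 : D * j - t + b = D * (j - (t + a) / D) + (D - (t + a) % D) := by
    rw [Nat.mul_sub]
    have h6 : D * ((t + a) / D) ≤ D * j := Nat.mul_le_mul_left _ h4
    omega
  rw [h5, Nat.mul_add_div hD, Nat.div_eq_of_lt (by omega : D - (t + a) % D < D)]
  omega

theorem key {M θ w t : ℕ} (hθ : 0 < θ) (h2 : 2 * θ ≤ M) (hw : Even w) (ht : t ≤ w * M)
    (h : R M θ (t - 1) = R M θ t) : R M θ (w * M - t) + R M θ t = w := by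
  obtain ⟨h3, h4⟩ := not_dvd hθ h2 h
  obtain ⟨j, hj⟩ := hw
  have e : w * M = 2 * M * j := by rw [hj]; ring
  rw [e] at ht ⊢
  have h5 := half (D := 2 * M) (j := j) (t := t) (a := θ) (b := 2 * M - θ) (by omega) (by omega) ht h3
  have h6 := half (D := 2 * M) (j := j) (t := t) (a := 2 * M - θ) (b := θ) (by omega) (by omega) ht h4
  unfold R
  omega

theorem R_top {M θ w : ℕ} (hθ : 0 < θ) (h2 : 2 * θ ≤ M) (hw : Even w) : R M θ (w * M) = w := by
  obtain ⟨j, hj⟩ := hw
  have e : w * M = 2 * M * j := by rw [hj]; ring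
  unfold R
  rw [e, Nat.mul_add_div (by omega), Nat.mul_add_div (by omega), Nat.div_eq_of_lt (by omega),
    Nat.div_eq_of_lt (by omega)]
  omega

end RndAux

open RndAux in
theorem tRnd (h1 : S_Hlf) : S_Rnd := by
  intro A m M r θ y hev hM hr hrθ hθM hnear hoff hg
  have hθ : 0 < θ := by omega
  have hrnd : ∀ t, rnd m M θ t = R M θ t := by
    intro t
    unfold rnd R
    have e : 2 ^ (true :: m).length = 2 * M := by
      rw [List.length_cons, pow_succ, ← hM, Nat.mul_comm]
    rw [h1.1, h1.1, e]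
  have hx : ∀ v, vec (tab (verts A) fun v => rnd m M θ (vec y v)) v = R M θ (vec y v) := by
    intro v
    by_cases hv : v ∈ verts A
    · rw [vec_tab hv, hrnd]
    · rw [vec_tab_zero hv, hoff v hv, R_small hθ hθM hθ]
  -- constancy in the window
  have hcon : ∀ v ∈ verts A, ∀ t, vec y v - (2 * r + 1) ≤ t → t ≤ vec y v + 2 * r →
      R M θ t = R M θ (vec y v) := by
    intro v hv t ht1 ht2
    unfold gth at hg
    rw [List.all_eq_true] at hg
    have h3 := of_decide_eq_true (hg v hv)
    rw [hrnd, hrnd] at h3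
    have h4 := R_mono M θ ht1
    have h5 := R_mono M θ ht2
    have h6 : R M θ (vec y v - (2 * r + 1)) ≤ R M θ (vec y v) := R_mono M θ (by omega)
    have h7 : R M θ (vec y v) ≤ R M θ (vec y v + 2 * r) := R_mono M θ (by omega)
    omega
  have hone : ∀ v ∈ verts A, R M θ (vec y v - 1) = R M θ (vec y v) := fun v hv =>
    hcon v hv _ (by omega) (by omega)
  refine ⟨fun a ha => ?_, fun v hv => ?_⟩
  · rw [hx, hx]
    obtain ⟨hu, hv⟩ := mem_verts ha
    have hw := hev a ha
    rcases Nat.lt_or_ge (vec y a.1.1) (a.2 * M) with hlt | hge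
    · have ht : (a.1, a.2 * M) ∈ scl M A := List.mem_map.2 ⟨a, ha, rfl⟩
      have h3 : a.2 * M - vec y a.1.1 ≤ T (scl M A) (vec y) a.1.2 := le_T (x := vec y) ht
      have h4 := (hnear a.1.2 hv).2
      have h5 : R M θ (a.2 * M - vec y a.1.1) ≤ R M θ (vec y a.1.2 + 2 * r) := R_mono M θ (by omega)
      rw [hcon a.1.2 hv (vec y a.1.2 + 2 * r) (by omega) le_rfl] at h5
      have h6 := key hθ hθM hw hlt.le (hone a.1.1 hu)
      omega
    · have h3 := R_mono M θ hge
      rw [R_top hθ hθM hw] at h3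
      omega
  · rw [hx] at hv
    have hvA : v ∈ verts A := by
      by_contra hn
      rw [hoff v hn, R_small hθ hθM hθ] at hv
      exact absurd hv (lt_irrefl 0)
    have hθv : θ ≤ vec y v := by
      by_contra hn
      rw [R_small hθ hθM (by omega)] at hv
      exact absurd hv (lt_irrefl 0)
    have hn := hnear v hvA
    have hn1 := hn.1
    have hn2 := hn.2
    have hT : 0 < T (scl M A) (vec y) v := by omega
    obtain ⟨e, he, hev', hsum⟩ := T_attained hT
    obtain ⟨a, ha, rfl⟩ := List.mem_map.1 he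
    have hev2 : a.1.2 = v := hev'
    have hsum2 : vec y a.1.1 + T (scl M A) (vec y) v = a.2 * M := hsum
    refine ⟨a, ha, hev2, ?_⟩
    rw [hx, hx]
    have hu := (mem_verts ha).1
    have h6 := key hθ hθM (hev a ha) (by omega : vec y a.1.1 ≤ a.2 * M) (hone a.1.1 hu)
    have h7 : a.2 * M - vec y a.1.1 = T (scl M A) (vec y) v := by omega
    rw [h7, hcon v hvA _ (by omega) (by omega)] at h6
    omega

end Pool.Agent.Lib.MP_c29043_lc.CR
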