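import Pool.Agent.Lib.MP_c29043_lc.CR.Spec

/-! # MP_c29043_lc, project CR: module Src (source components) -/

set_option autoImplicit false

open N68a2faeb N487b59b3 Pool.Agent.Lib.PolyTime

namespace Pool.Agent.Lib.MP_c29043_lc.CR

open Pool.Agent.Lib.MP_c29043_lc

namespace SrcAux

/-- The fold in `src` is an arg min. -/
theorem fold_min (f : ℕ → List ℕ) (l : List ℕ) (X0 : List ℕ) :
    (l.foldl (fun X v => if (f v).length < X.length then f v else X) X0 = X0 ∨
      ∃ v ∈ l, l.foldl (fun X v => if (f v).length < X.length then f v else X) X0 = f v) ∧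
    (l.foldl (fun X v => if (f v).length < X.length then f v else X) X0).length ≤ X0.length ∧
    ∀ v ∈ l, (l.foldl (fun X v => if (f v).length < X.length then f v else X) X0).length ≤ (f v).length := by
  induction l generalizing X0 with
  | nil => exact ⟨Or.inl rfl, le_refl _, fun v hv => absurd hv (List.not_mem_nil)⟩
  | cons a l ih =>
    rw [List.foldl_cons]
    by_cases h : (f a).length < X0.length
    · rw [if_pos h]
      obtain ⟨h1, h2, h3⟩ := ih (f a)
      refine ⟨Or.inr ?_, h2.trans h.le, ?_⟩
      · rcases h1 with h1 | ⟨v, hv, h1⟩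
        · exact ⟨a, List.mem_cons_self, h1⟩
        · exact ⟨v, List.mem_cons_of_mem _ hv, h1⟩
      · intro v hv
        rcases List.mem_cons.1 hv with rfl | hv
        · exact h2
        · exact h3 v hv
    · rw [if_neg h]
      obtain ⟨h1, h2, h3⟩ := ih X0
      refine ⟨?_, h2, ?_⟩
      · rcases h1 with h1 | ⟨v, hv, h1⟩
        · exact Or.inl h1
        · exact Or.inr ⟨v, List.mem_cons_of_mem _ hv, h1⟩
      · intro v hv
        rcases List.mem_cons.1 hv with rfl | hv
        · exact h2.trans (not_lt.1 h)
        · exact h3 v hv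

/-- Two filters of a list, one contained in the other and not shorter. -/
theorem filter_le (p q : ℕ → Bool) (R : List ℕ) (h : ∀ w ∈ R, p w = true → q w = true) :
    (R.filter p).length ≤ (R.filter q).length ∧
    ((R.filter q).length ≤ (R.filter p).length → ∀ w ∈ R, q w = true → p w = true) := by
  induction R with
  | nil => exact ⟨le_refl _, fun _ w hw => absurd hw (List.not_mem_nil)⟩
  | cons a R ih =>
    obtain ⟨h1, h2⟩ := ih fun w hw => h w (List.mem_cons_of_mem _ hw)
    have ha := h a List.mem_cons_self
    cases hp : p a with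
    | true =>
      have hq := ha hp
      rw [List.filter_cons_of_pos hp, List.filter_cons_of_pos hq, List.length_cons, List.length_cons]
      refine ⟨by omega, fun hl w hw hqw => ?_⟩
      rcases List.mem_cons.1 hw with rfl | hw
      · exact hp
      · exact h2 (by omega) w hw hqw
    | false =>
      have hp' : ¬ p a = true := by rw [hp]; exact Bool.false_ne_true
      rw [List.filter_cons_of_neg hp']
      cases hq : q a with
      | true =>
        rw [List.filter_cons_of_pos hq, List.length_cons]
        exact ⟨by omega, fun hl => by omega⟩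
      | false =>
        have hq' : ¬ q a = true := by rw [hq]; exact Bool.false_ne_true
        rw [List.filter_cons_of_neg hq']
        refine ⟨h1, fun hl w hw hqw => ?_⟩
        rcases List.mem_cons.1 hw with rfl | hw
        · exact absurd hqw hq'
        · exact h2 hl w hw hqw

end SrcAux

open SrcAux in
theorem tSrc (h1 : S_Pre) : S_Src := by
  intro A R hR
  have hhead : R.headD 0 ∈ R := by
    cases R with
    | nil => exact absurd rfl hR
    | cons a R => exact List.mem_cons_self
  obtain ⟨hc, -, hmin⟩ := fold_min (pre A R) R (pre A R (R.headD 0))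
  have hex : ∃ v0 ∈ R, src A R = pre A R v0 := by
    rcases hc with hc | ⟨v, hv, hc⟩
    · exact ⟨_, hhead, hc⟩
    · exact ⟨v, hv, hc⟩
  obtain ⟨v0, hv0, hsrc⟩ := hex
  have hmin' : ∀ v ∈ R, (src A R).length ≤ (pre A R v).length := hmin
  have hmem : ∀ u, u ∈ src A R ↔ u ∈ R ∧ Relation.ReflTransGen (Adj A {w | w ∈ R}) u v0 := by
    intro u
    rw [hsrc]
    exact (h1 A R v0).2 hv0 u
  have hself : v0 ∈ src A R := (hmem v0).2 ⟨hv0, Relation.ReflTransGen.refl⟩
  have hback : ∀ u ∈ src A R, Relation.ReflTransGen (Adj A {w | w ∈ R}) v0 u := by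
    intro u hu
    obtain ⟨huR, hu0⟩ := (hmem u).1 hu
    obtain ⟨p, hp⟩ := (h1 A R u).1
    obtain ⟨q, hq⟩ := (h1 A R v0).1
    have hpu := (h1 A R u).2 huR
    have hsub : ∀ w ∈ R, p w = true → q w = true := by
      intro w hw hpw
      have h2 : w ∈ pre A R u := by
        rw [hp]
        exact List.mem_filter.2 ⟨hw, hpw⟩
      have h3 : w ∈ src A R := (hmem w).2 ⟨hw, ((hpu w).1 h2).2.trans hu0⟩
      rw [hsrc, hq] at h3
      exact (List.mem_filter.1 h3).2
    have hlen : (R.filter q).length ≤ (R.filter p).length := by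
      rw [← hq, ← hp, ← hsrc]
      exact hmin' u huR
    have h4 : q v0 = true := by
      rw [hsrc, hq] at hself
      exact (List.mem_filter.1 hself).2
    have h5 := (filter_le p q R hsub).2 hlen v0 hv0 h4
    have h6 : v0 ∈ pre A R u := by
      rw [hp]
      exact List.mem_filter.2 ⟨hv0, h5⟩
    exact ((hpu v0).1 h6).2
  refine ⟨fun u hu => ((hmem u).1 hu).1, fun h => ?_, ?_, ?_⟩
  · rw [h] at hself
    exact absurd hself (List.not_mem_nil)
  · intro u hu v hv
    have hu' : u ∈ src A R := hu
    have hv' : v ∈ src A R := hv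
    have huv : Relation.ReflTransGen (Adj A {w | w ∈ R}) u v := ((hmem u).1 hu').2.trans (hback v hv')
    have hin : ∀ a, a ∈ R → Relation.ReflTransGen (Adj A {w | w ∈ R}) a v → a ∈ src A R := by
      intro a ha hav
      exact (hmem a).2 ⟨ha, hav.trans ((hmem v).1 hv').2⟩
    clear hu hu'
    induction huv using Relation.ReflTransGen.head_induction_on with
    | refl => exact Relation.ReflTransGen.refl
    | head hab hbv ih =>
      obtain ⟨ha, hb, w, hw⟩ := hab
      exact Relation.ReflTransGen.head
        ⟨hin _ ha (Relation.ReflTransGen.head ⟨ha, hb, w, hw⟩ hbv), hin _ hb hbv, w, hw⟩ ih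
  · intro e he h2 h3
    obtain ⟨h4, h5⟩ := (hmem _).1 h2
    exact (hmem _).2 ⟨h3, Relation.ReflTransGen.head ⟨h3, h4, e.2, he⟩ h5⟩

end Pool.Agent.Lib.MP_c29043_lc.CR
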