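import Pool.Agent.Lib.MP_c29043_lc.CR.Spec

/-!
# MP_c29043_lc, project CR, module Thr: a good threshold
-/

set_option autoImplicit false

open N68a2faeb N487b59b3 Pool.Agent.Lib.PolyTime

namespace Pool.Agent.Lib.MP_c29043_lc.CR

open Pool.Agent.Lib.MP_c29043_lc

/-- a multiple of `2 M` is near `Y + θ` or `Y - θ` -/
private def ThrBad (M r Y θ : ℤ) : Prop :=
  ∃ q : ℤ, |2 * M * q - Y - θ| ≤ 2 * r ∨ |2 * M * q - Y + θ| ≤ 2 * r

/-- a changing quotient -/
private theorem Thr_quot (D a b : ℕ) (hD : 0 < D) (hab : a ≤ b) (h : a / D ≠ b / D) :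
    ∃ q : ℕ, a < D * q ∧ D * q ≤ b := by
  have h1 : a / D < b / D := lt_of_le_of_ne (Nat.div_le_div_right hab) h
  refine ⟨b / D, ?_, Nat.mul_div_le b D⟩
  rw [mul_comm]
  exact (Nat.div_lt_iff_lt_mul hD).1 h1

private theorem Thr_bad (M r θ Y : ℕ) (hM : 0 < M) (hθ : θ ≤ 2 * M)
    (h : (Y + 2 * r + (2 * M - θ)) / (2 * M) + (Y + 2 * r + θ) / (2 * M) ≠
      (Y - (2 * r + 1) + (2 * M - θ)) / (2 * M) + (Y - (2 * r + 1) + θ) / (2 * M)) :
    ThrBad M r Y θ := by
  by_cases h1 : (Y - (2 * r + 1) + (2 * M - θ)) / (2 * M) = (Y + 2 * r + (2 * M - θ)) / (2 * M)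
  · have h2 : (Y - (2 * r + 1) + θ) / (2 * M) ≠ (Y + 2 * r + θ) / (2 * M) := by
      intro h2
      exact h (by rw [h1, h2])
    obtain ⟨q, hq1, hq2⟩ := Thr_quot (2 * M) _ _ (by omega) (by omega) h2
    refine ⟨q, Or.inl ?_⟩
    have e1 : (Y : ℤ) - (2 * r + 1) + θ < 2 * M * q := by
      have : ((Y - (2 * r + 1) + θ : ℕ) : ℤ) < ((2 * M * q : ℕ) : ℤ) := by exact_mod_cast hq1
      push_cast at this
      have h3 : (Y : ℤ) - (2 * r + 1) ≤ ((Y - (2 * r + 1) : ℕ) : ℤ) := by omega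
      push_cast at h3
      linarith
    have e2 : (2 : ℤ) * M * q ≤ Y + 2 * r + θ := by exact_mod_cast hq2
    rw [abs_le]
    constructor <;> linarith
  · obtain ⟨q, hq1, hq2⟩ := Thr_quot (2 * M) _ _ (by omega) (by omega) h1
    refine ⟨(q : ℤ) - 1, Or.inr ?_⟩
    obtain ⟨ρ, hρ⟩ : ∃ ρ : ℕ, ρ = 2 * M - θ := ⟨_, rfl⟩
    have hρ' : (ρ : ℤ) = 2 * M - θ := by omega
    rw [← hρ] at hq1 hq2
    have e1 : (Y : ℤ) - (2 * r + 1) + ρ < 2 * M * q := by
      have : ((Y - (2 * r + 1) + ρ : ℕ) : ℤ) < ((2 * M * q : ℕ) : ℤ) := by exact_mod_cast hq1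
      push_cast at this
      have h3 : (Y : ℤ) - (2 * r + 1) ≤ ((Y - (2 * r + 1) : ℕ) : ℤ) := by omega
      push_cast at h3
      linarith
    have e2 : (2 : ℤ) * M * q ≤ Y + 2 * r + ρ := by exact_mod_cast hq2
    rw [hρ'] at e1 e2
    rw [abs_le]
    constructor <;> linarith

/-- a difference is not near a multiple of `2 M` -/
private theorem Thr_sep (M r Q Δ : ℤ) (hr : 0 < r) (hM : 4 * r < M) (h1 : |Δ| ≤ M) (h2 : 8 * r ≤ |Δ|)
    (h3 : |2 * M * Q - Δ| ≤ 4 * r) : False := by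
  rw [abs_le] at h1 h3
  rcases lt_trichotomy Q 0 with h | h | h
  · nlinarith [h1.1, h1.2, h3.1, h3.2]
  · subst h
    have : |Δ| ≤ 4 * r := by
      rw [abs_le]
      constructor <;> linarith [h3.1, h3.2]
    linarith
  · nlinarith [h1.1, h1.2, h3.1, h3.2]

private theorem Thr_two (M r Y θ θ' : ℤ) (hr : 0 < r) (hM : 4 * r < M) (hθ : 4 * r ≤ θ) (hθM : 2 * θ ≤ M)
    (hθ' : 4 * r ≤ θ') (hθM' : 2 * θ' ≤ M) (hd : 8 * r ≤ |θ - θ'|) (hb : ThrBad M r Y θ)
    (hb' : ThrBad M r Y θ') : False := by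
  obtain ⟨q, hq⟩ := hb
  obtain ⟨q', hq'⟩ := hb'
  have hd2 := abs_le.1 (le_refl |θ - θ'|)
  rcases hq with h | h <;> rcases hq' with h' | h' <;> rw [abs_le] at h h'
  · -- `θ - θ'`
    refine Thr_sep M r (q - q') (θ - θ') hr hM ?_ hd ?_
    · rw [abs_le]; constructor <;> linarith
    · rw [abs_le]; constructor <;> linarith [h.1, h.2, h'.1, h'.2]
  · -- `θ + θ'`
    refine Thr_sep M r (q - q') (θ + θ') hr hM ?_ ?_ ?_
    · rw [abs_le]; constructor <;> linarith
    · rw [abs_of_nonneg (by linarith)]; linarith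
    · rw [abs_le]; constructor <;> linarith [h.1, h.2, h'.1, h'.2]
  · refine Thr_sep M r (q' - q) (θ + θ') hr hM ?_ ?_ ?_
    · rw [abs_le]; constructor <;> linarith
    · rw [abs_of_nonneg (by linarith)]; linarith
    · rw [abs_le]; constructor <;> linarith [h.1, h.2, h'.1, h'.2]
  · refine Thr_sep M r (q' - q) (θ - θ') hr hM ?_ hd ?_
    · rw [abs_le]; constructor <;> linarith
    · rw [abs_le]; constructor <;> linarith [h.1, h.2, h'.1, h'.2]

theorem tThr (h1 : S_Hlf) : S_Thr := by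
  intro m M r V y hMm hMr hr
  have hM0 : 0 < M := by rw [hMm]; exact Nat.pow_pos (by norm_num)
  have hn : V.length + 1 ≤ 2 ^ V.length := Nat.lt_two_pow_self
  have hM : 32 * (r * (V.length + 1)) ≤ M := by
    rw [hMr, pow_add]
    nlinarith [Nat.mul_le_mul_left r hn]
  have hrn : r ≤ r * (V.length + 1) := Nat.le_mul_of_pos_right r (Nat.succ_pos _)
  -- the thresholds
  have hth : ∀ i, i ≤ V.length → 4 * r ≤ 4 * (r * (2 * i + 1)) ∧ 2 * (4 * (r * (2 * i + 1))) ≤ M := by
    intro i hi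
    have e1 : r ≤ r * (2 * i + 1) := Nat.le_mul_of_pos_right r (Nat.succ_pos _)
    have e2 : r * (2 * i + 1) ≤ r * (2 * (V.length + 1)) := Nat.mul_le_mul_left r (by omega)
    have e3 : r * (2 * (V.length + 1)) = 2 * (r * (V.length + 1)) := by ring
    constructor <;> omega
  have hmem : ∀ θ, θ ∈ ths r V ↔ ∃ i, i ≤ V.length ∧ 4 * (r * (2 * i + 1)) = θ := by
    intro θ
    unfold ths
    rw [List.mem_map]
    constructor
    · rintro ⟨i, hi, h⟩
      rw [List.mem_range, List.length_cons] at hi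
      exact ⟨i, by omega, h⟩
    · rintro ⟨i, hi, h⟩
      exact ⟨i, by rw [List.mem_range, List.length_cons]; omega, h⟩
  have hrnd : ∀ θ t, rnd m M θ t = (t + (2 * M - θ)) / (2 * M) + (t + θ) / (2 * M) := by
    intro θ t
    unfold rnd
    rw [h1.1, h1.1, List.length_cons, pow_succ, ← hMm, mul_comm M 2]
  refine ⟨?_, ?_⟩
  · intro θ hθ
    obtain ⟨i, hi, rfl⟩ := (hmem θ).1 hθ
    exact hth i hi
  · by_contra hno
    push Not at hno
    -- every threshold is bad for some node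
    have hbad : ∀ i, i ≤ V.length → ∃ v ∈ V, ThrBad M r (vec y v) ((4 * (r * (2 * i + 1)) : ℕ) : ℤ) := by
      intro i hi
      have h2 := hno _ ((hmem _).2 ⟨i, hi, rfl⟩)
      have h3 : ∃ v ∈ V, rnd m M (4 * (r * (2 * i + 1))) (vec y v + 2 * r) ≠
          rnd m M (4 * (r * (2 * i + 1))) (vec y v - (2 * r + 1)) := by
        by_contra h4
        push Not at h4
        apply h2
        unfold gth
        rw [List.all_eq_true]
        intro v hv
        rw [decide_eq_true_eq]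
        exact h4 v hv
      obtain ⟨v, hv, h4⟩ := h3
      rw [hrnd, hrnd] at h4
      exact ⟨v, hv, Thr_bad M r _ _ hM0 (by have := (hth i hi).2; omega) h4⟩
    choose! f hf1 hf2 using hbad
    obtain ⟨i, hi, j, hj, hij, hfij⟩ := Finset.exists_ne_map_eq_of_card_lt_of_maps_to
      (s := Finset.range (V.length + 1)) (t := V.toFinset) (f := f)
      (by rw [Finset.card_range]; exact Nat.lt_succ_of_le (List.toFinset_card_le V))
      (fun i hi => by
        simp only [Finset.mem_coe, Finset.mem_range] at hi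
        simpa using hf1 i (by omega))
    rw [Finset.mem_range] at hi hj
    have hbi := hf2 i (by omega)
    have hbj := hf2 j (by omega)
    rw [← hfij] at hbj
    have hti := hth i (by omega)
    have htj := hth j (by omega)
    refine Thr_two M r _ _ _ (by exact_mod_cast hr) (by omega) (by exact_mod_cast hti.1) (by exact_mod_cast hti.2)
      (by exact_mod_cast htj.1) (by exact_mod_cast htj.2) ?_ hbi hbj
    push_cast
    have hr' : (0 : ℤ) < r := by exact_mod_cast hr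
    rcases lt_or_gt_of_ne hij with h | h
    · have h' : (i : ℤ) + 1 ≤ j := by exact_mod_cast h
      rw [abs_sub_comm, abs_of_nonneg (by nlinarith)]
      nlinarith
    · have h' : (j : ℤ) + 1 ≤ i := by exact_mod_cast h
      rw [abs_of_nonneg (by nlinarith)]
      nlinarith

end Pool.Agent.Lib.MP_c29043_lc.CR
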