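import Pool.Agent.Lib.MP_c29043_lc.CR.Psi
import Pool.Agent.Lib.MP_c29043_lc.CR.Hlf
import Pool.Agent.Lib.MP_c29043_lc.CR.Gre
import Pool.Agent.Lib.MP_c29043_lc.CR.Dif
import Pool.Agent.Lib.MP_c29043_lc.CR.BiA
import Pool.Agent.Lib.MP_c29043_lc.CR.Bis
import Pool.Agent.Lib.MP_c29043_lc.CR.Pre
import Pool.Agent.Lib.MP_c29043_lc.CR.Src
import Pool.Agent.Lib.MP_c29043_lc.CR.Cmp
import Pool.Agent.Lib.MP_c29043_lc.CR.Lop
import Pool.Agent.Lib.MP_c29043_lc.CR.Ind
import Pool.Agent.Lib.MP_c29043_lc.CR.Apx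
import Pool.Agent.Lib.MP_c29043_lc.CR.Thr
import Pool.Agent.Lib.MP_c29043_lc.CR.Rnd
import Pool.Agent.Lib.MP_c29043_lc.CR.Cor
import Pool.Agent.Lib.MP_c29043_lc.CR.PtA
import Pool.Agent.Lib.MP_c29043_lc.CR.PtB
import Pool.Agent.Lib.MP_c29043_lc.CR.PtC
import Pool.Agent.Lib.MP_c29043_lc.CR.PtD
import Pool.Agent.Lib.MP_c29043_lc.CR.PtE
import Pool.Agent.Lib.MP_c29043_lc.CR.PtF
import Pool.Agent.Lib.MP_c29043_lc.CR.PtG
import Pool.Agent.Lib.MP_c29043_lc.CR.Fin

/-!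
# MP_c29043_lc, project CR (architect helper12): assembly
-/

set_option autoImplicit false

namespace Pool.Agent.Lib.MP_c29043_lc.CR

open Pool.Agent.Lib.MP_c29043_lc

/-- Covers of the digraphs of rank at most `K` are computable in polynomial time. -/
theorem tAll (K : ℕ) : CoversInP fun A => Rank A K (nodes A) := by
  have hPsi := tPsi
  have hHlf := tHlf
  have hGre := tGre
  have hDif := tDif hPsi
  have hBiA := tBiA hGre
  have hBis := tBis hHlf hGre hDif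
  have hPre := tPre
  have hSrc := tSrc hPre
  have hCmp := tCmp hHlf hBiA hBis
  have hLop := tLop hHlf hSrc hCmp
  have hInd := tInd hHlf hLop
  have hApx := tApx hHlf hInd
  have hThr := tThr hHlf
  have hRnd := tRnd hHlf
  have hCor := tCor hApx hThr hRnd
  have hPtA := tPtA
  have hPtB := tPtB
  have hPtC := tPtC hPtA
  have hPtD := tPtD hPtA hPtC
  have hPtE := tPtE hPtB hPtD
  have hPtF := tPtF hPtA hPtE
  have hPtG := tPtG hPtA hPtF
  exact tFin hCor hPtG K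

end Pool.Agent.Lib.MP_c29043_lc.CR
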