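import Pool.Agent.Lib.MP_c29043_lc.CR.Spec

/-!
# MP_c29043_lc, project CR: the approximate solution (statement `S_Apx`)
-/

set_option autoImplicit false

open N68a2faeb N487b59b3 Pool.Agent.Lib.PolyTime

namespace Pool.Agent.Lib.MP_c29043_lc.CR

open Pool.Agent.Lib.MP_c29043_lc

private theorem verts_scl (M : ℕ) (A : List ((ℕ × ℕ) × ℕ)) : verts (scl M A) = verts A := by
  unfold verts scl
  rw [List.map_map, List.map_map]
  rfl

private theorem wts_scl_le (M : ℕ) (A : List ((ℕ × ℕ) × ℕ)) : wts (scl M A) ≤ wts A * M := by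
  unfold wts scl
  refine lmax_le ?_
  intro a ha
  rw [List.map_map, List.mem_map] at ha
  obtain ⟨e, he, rfl⟩ := ha
  exact Nat.mul_le_mul_right M (le_wts e he)

private theorem adj_scl (M : ℕ) (A : List ((ℕ × ℕ) × ℕ)) (U : Set ℕ) : Adj (scl M A) U = Adj A U := by
  funext u v
  apply propext
  unfold Adj scl
  refine and_congr_right fun _ => and_congr_right fun _ => ?_
  constructor
  · rintro ⟨w, hw⟩
    rw [List.mem_map] at hw
    obtain ⟨⟨k, w'⟩, he, h1⟩ := hw
    rw [Prod.mk.injEq] at h1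
    obtain ⟨h2, h3⟩ := h1
    simp only at h2
    subst h2
    exact ⟨w', he⟩
  · rintro ⟨w, hw⟩
    exact ⟨w * M, List.mem_map.mpr ⟨((u, v), w), hw, rfl⟩⟩

private theorem rank_scl (M : ℕ) (A : List ((ℕ × ℕ) × ℕ)) (k : ℕ) :
    ∀ U : Set ℕ, Rank A k U → Rank (scl M A) k U := by
  induction k with
  | zero => intro U h; exact h
  | succ k ih =>
    intro U h X hX hne hs
    have hs' : Strong A X := by
      unfold Strong at hs ⊢
      rw [adj_scl] at hs
      exact hs
    obtain ⟨z, hz, h1⟩ := h X hX hne hs'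
    exact ⟨z, hz, ih _ h1⟩

private theorem rad_eq (L : List Bool) (k : ℕ) : rad L k = 2 ^ (rl L k).length := by
  unfold rad
  rw [pws_eq]

private theorem Mf_eq (A : List ((ℕ × ℕ) × ℕ)) (K : ℕ) : Mf A K = 2 ^ (ml A K).length := by
  unfold Mf
  rw [pws_eq]

private theorem Mf_eq' (A : List ((ℕ × ℕ) × ℕ)) (K : ℕ) :
    Mf A K = rad (Ls A) K * 2 ^ ((verts A).length + 5) := by
  rw [Mf_eq, rad_eq, ← pow_add]
  congr 1
  unfold ml
  rw [List.length_append, List.length_append, List.length_map]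
  rfl

private theorem Ls_pow (A : List ((ℕ × ℕ) × ℕ)) :
    (wts A + 1) * 2 ^ ((verts A).length + 5) ≤ 2 ^ (Ls A).length := by
  have h1 : (Ls A).length = (bitsOf (wts A)).length + ((verts A).length + 5) := by
    unfold Ls
    rw [List.length_append, List.length_append, List.length_map]
    rfl
  rw [h1, pow_add 2 (bitsOf (wts A)).length]
  exact Nat.mul_le_mul_right _ (lt_two_pow_sz (wts A))

private theorem envOK (A : List ((ℕ × ℕ) × ℕ)) (K : ℕ) : EnvOK (env A K) := by
  refine ⟨(bitsOf (wts A * Mf A K)).length, ?_, ?_, ?_⟩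
  · unfold env
    simp only [pws_eq]
  · unfold env
    simp only [pws_eq]
    exact Nat.le_succ _
  · unfold env
    simp only
    exact lt_of_le_of_lt (wts_scl_le _ _) (lt_two_pow_sz _)

theorem tApx (_ : S_Hlf) (h2 : S_Ind) : S_Apx := by
  intro K A hR
  obtain ⟨hFA, hFB⟩ := h2 (env A K) (envOK A K) K
  have hv : verts (env A K).1 = verts A := verts_scl _ _
  have hY : ∀ u ∈ verts A, u ∈ verts (env A K).1 := fun u hu => by rw [hv]; exact hu
  have h0 : vec (tab (verts A) fun _ => 0) = fun _ => 0 := vec_tab_eq (fun v _ => rfl)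
  have hG : Good (env A K) (tab (verts A) fun _ => 0) := by
    intro v
    rw [h0]
    exact ⟨Nat.zero_le _, fun _ => rfl⟩
  obtain ⟨_, hy0⟩ := hFA (verts A) _ hY hG
  have hRk : Rank (env A K).1 K {u | u ∈ verts A} := rank_scl _ _ _ _ hR
  have hB := hFB (verts A) _ hY hG hRk
  set y : ℕ → ℕ := vec (sol (env A K) K (verts A, tab (verts A) fun _ => 0)) with hy
  set r : ℕ := rad (Ls A) K with hr
  have hz : ∀ v, v ∉ verts A → y v = 0 := by
    intro v hvn
    have h3 := hy0 v hvn
    rw [h0] at h3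
    exact h3
  have hr0 : 0 < r := by
    rw [hr, rad_eq]
    exact Nat.two_pow_pos _
  have hM : Mf A K = r * 2 ^ ((verts A).length + 5) := Mf_eq' A K
  have hB' : ∀ v ∈ verts A, near r (y v) (TL (scl (Mf A K) A) (Ls A).length y v) := hB
  have hTL : ∀ v, TL (scl (Mf A K) A) (Ls A).length y v ≤ wts A * Mf A K := by
    intro v
    exact T_le_bound (fun e he => (le_wts e he).trans (wts_scl_le _ _)) v
  have hbd : ∀ v, y v ≤ wts A * Mf A K + r := by
    intro v
    by_cases hvm : v ∈ verts A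
    · have h3 := (hB' v hvm).1
      have h4 := hTL v
      omega
    · rw [hz v hvm]
      exact Nat.zero_le _
  have hdiv : ∀ v, y v / 2 ^ (Ls A).length ≤ r := by
    intro v
    apply Nat.div_le_of_le_mul
    refine (hbd v).trans ?_
    have h5 := Ls_pow A
    have h6 : 1 ≤ 2 ^ ((verts A).length + 5) := Nat.one_le_two_pow
    calc wts A * Mf A K + r = r * (wts A * 2 ^ ((verts A).length + 5) + 1) := by rw [hM]; ring
      _ ≤ r * ((wts A + 1) * 2 ^ ((verts A).length + 5)) := by
          apply Nat.mul_le_mul_left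
          rw [Nat.add_mul, one_mul]
          omega
      _ ≤ r * 2 ^ (Ls A).length := Nat.mul_le_mul_left _ h5
      _ = 2 ^ (Ls A).length * r := Nat.mul_comm _ _
  have hpsi : ∀ v, y v ≤ psi (Ls A).length (y v) + r := by
    intro v
    have h7 := hdiv v
    unfold psi
    omega
  have hpsi' : ∀ v, psi (Ls A).length (y v) ≤ y v := fun v => Nat.sub_le _ _
  refine ⟨?_, hz, Mf_eq A K, hM, hr0⟩
  intro v hvm
  obtain ⟨h8, h9⟩ := hB' v hvm
  have h10 : T (scl (Mf A K) A) y v ≤ TL (scl (Mf A K) A) (Ls A).length y v := T_anti hpsi' v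
  have h11 : TL (scl (Mf A K) A) (Ls A).length y v ≤ T (scl (Mf A K) A) y v + r :=
    T_nonexp hpsi v
  refine ⟨?_, ?_⟩ <;> omega

end Pool.Agent.Lib.MP_c29043_lc.CR
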