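import Pool.Agent.Lib.MP_c29043_lc.Solve
import Pool.Agent.Lib.PolyTime.Main
import Pool.Agent.Lib.PolyTime.Mul

/-!
# MP_c29043_lc, project CR (architect helper12): covers of digraphs of bounded cycle rank. Definitions.
-/

set_option autoImplicit false

open N68a2faeb N487b59b3 Pool.Agent.Lib.PolyTime

namespace Pool.Agent.Lib.MP_c29043_lc.CR

open Pool.Agent.Lib.MP_c29043_lc

/-! ### The class of digraphs -/

/-- there is an arc from `u` to `v`, and both are in `U` -/
def Adj (A : List ((ℕ × ℕ) × ℕ)) (U : Set ℕ) (u v : ℕ) : Prop :=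
  u ∈ U ∧ v ∈ U ∧ ∃ w, ((u, v), w) ∈ A

/-- every node of `X` reaches every node of `X` inside `X` -/
def Strong (A : List ((ℕ × ℕ) × ℕ)) (X : Set ℕ) : Prop :=
  ∀ u ∈ X, ∀ v ∈ X, Relation.ReflTransGen (Adj A X) u v

/-- `U` is empty (`k = 0`), or every nonempty strongly connected subset of `U` has a node whose deletion leaves a set
of rank at most `k - 1`: `U` can be emptied in `k` rounds of deleting one node from every strong component -/
def Rank (A : List ((ℕ × ℕ) × ℕ)) : ℕ → Set ℕ → Prop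
  | 0, U => U = ∅
  | k + 1, U => ∀ X ⊆ U, X.Nonempty → Strong A X → ∃ z ∈ X, Rank A k (X \ {z})

/-! ### Numbers -/

/-- the discount -/
def psi (ℓ t : ℕ) : ℕ := t - t / 2 ^ ℓ

/-- the discounted operator -/
def TL (A : List ((ℕ × ℕ) × ℕ)) (ℓ : ℕ) (x : ℕ → ℕ) (v : ℕ) : ℕ := T A (fun u => psi ℓ (x u)) v

/-- `|a - b| ≤ r` -/
def near (r a b : ℕ) : Prop := a ≤ b + r ∧ b ≤ a + r

/-- `n / 2 ^ L.length` -/
def hlf (L : List Bool) (n : ℕ) : ℕ := L.foldl (fun s _ => s / 2) n

/-- the discounted operator for lists -/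
def TA (A : List ((ℕ × ℕ) × ℕ)) (L : List Bool) (x : List (ℕ × ℕ)) (v : ℕ) : ℕ :=
  T A (vec (tab (verts A) fun u => vec x u - hlf L (vec x u))) v

/-- a list of length `k * (L.length + 2)` -/
def rl (L : List Bool) : ℕ → List Bool
  | 0 => []
  | k + 1 => (true :: true :: L) ++ rl L k

/-- `rad L k = 2 ^ (k * (L.length + 2))`, the error at level `k` -/
def rad (L : List Bool) (k : ℕ) : ℕ := (pws (rl L k)).1

/-! ### Strong components -/

/-- one step backwards in `R` -/
def pstep (A : List ((ℕ × ℕ) × ℕ)) (R S : List ℕ) : List ℕ :=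
  R.filter fun u => decide (u ∈ S) || A.any fun e => decide (e.1.1 = u) && decide (e.1.2 ∈ S)

/-- the nodes of `R` which reach `v` inside `R` -/
def pre (A : List ((ℕ × ℕ) × ℕ)) (R : List ℕ) (v : ℕ) : List ℕ :=
  R.foldl (fun S _ => pstep A R S) (R.filter fun u => decide (u = v))

/-- a shortest list `pre A R v`, `v ∈ R`: a source component of `R` -/
def src (A : List ((ℕ × ℕ) × ℕ)) (R : List ℕ) : List ℕ :=
  R.foldl (fun X v => if (pre A R v).length < X.length then pre A R v else X) (pre A R (R.headD 0))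

/-! ### The algorithm -/

/-- the data of the algorithm: arcs (with scaled weights), a list whose length is the exponent of the discount, the
powers of two for the bisection, a bound for all values -/
abbrev Env : Type := List ((ℕ × ℕ) × ℕ) × (List Bool × (List ℕ × ℕ))

/-- change the value of `z` -/
def upd (A : List ((ℕ × ℕ) × ℕ)) (x : List (ℕ × ℕ)) (z c : ℕ) : List (ℕ × ℕ) :=
  tab (verts A) fun v => if v = z then c else vec x v

/-- the value of `z` found by bisection -/
def bic (e : Env) (F : List ℕ × List (ℕ × ℕ) → List (ℕ × ℕ)) (z : ℕ) (Y : List ℕ) (x : List (ℕ × ℕ)) : ℕ :=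
  e.2.2.1.foldl (fun c p => if c + p ≤ TA e.1 e.2.1 (F (Y, upd e.1 x z (c + p))) z then c + p else c) 0

/-- bisection for the value of `z`, with the subroutine `F` for the nodes of `Y` -/
def bis (e : Env) (F : List ℕ × List (ℕ × ℕ) → List (ℕ × ℕ)) (z : ℕ) (Y : List ℕ) (x : List (ℕ × ℕ)) :
    List (ℕ × ℕ) := F (Y, upd e.1 x z (bic e F z Y x))

/-- the equation at `v` holds up to the error `r` -/
def res (e : Env) (r : ℕ) (x : List (ℕ × ℕ)) (v : ℕ) : Bool :=
  decide (vec x v ≤ TA e.1 e.2.1 x v + r) && decide (TA e.1 e.2.1 x v ≤ vec x v + r)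

/-- the strong component `X`: try all `z ∈ X` -/
def cmp (e : Env) (F : List ℕ × List (ℕ × ℕ) → List (ℕ × ℕ)) (r : ℕ) (X : List ℕ) (x : List (ℕ × ℕ)) :
    List (ℕ × ℕ) :=
  ((X.map fun z => bis e F z (X.filter fun u => decide (u ≠ z)) x).filter fun y => X.all fun v => res e r y v).headD x

/-- one step: a source component of the remaining nodes -/
def stp (e : Env) (F : List ℕ × List (ℕ × ℕ) → List (ℕ × ℕ)) (r : ℕ) (s : List ℕ × List (ℕ × ℕ)) :
    List ℕ × List (ℕ × ℕ) :=
  if s.1 = [] then s else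
    (s.1.filter fun u => decide (u ∉ src e.1 s.1),
      tab (verts e.1) fun v => min e.2.2.2 (vec (cmp e F r (src e.1 s.1) s.2) v))

/-- all strong components -/
def lop (e : Env) (F : List ℕ × List (ℕ × ℕ) → List (ℕ × ℕ)) (r : ℕ) (p : List ℕ × List (ℕ × ℕ)) :
    List ℕ × List (ℕ × ℕ) := p.1.foldl (fun s _ => stp e F r s) p

/-- the algorithm for rank at most `k`: `p = (U, x)`, new values for the nodes of `U` -/
def sol (e : Env) : ℕ → List ℕ × List (ℕ × ℕ) → List (ℕ × ℕ)
  | 0, p => p.2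
  | k + 1, p => (lop e (sol e k) (rad e.2.1 (k + 1)) p).2

/-! ### Rounding -/

/-- the exponent of the discount: length `|bits of the largest weight| + n + 5` -/
def Ls (A : List ((ℕ × ℕ) × ℕ)) : List Bool :=
  bitsOf (wts A) ++ ((verts A).map (fun _ => true) ++ [true, true, true, true, true])

/-- a list whose length is the exponent of the scaling factor -/
def ml (A : List ((ℕ × ℕ) × ℕ)) (K : ℕ) : List Bool :=
  rl (Ls A) K ++ ((verts A).map (fun _ => true) ++ [true, true, true, true, true])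

/-- the scaling factor `M = rad * 2 ^ (n + 5)` -/
def Mf (A : List ((ℕ × ℕ) × ℕ)) (K : ℕ) : ℕ := (pws (ml A K)).1

/-- scaled weights -/
def scl (M : ℕ) (A : List ((ℕ × ℕ) × ℕ)) : List ((ℕ × ℕ) × ℕ) := A.map fun a => (a.1, a.2 * M)

/-- the data for the digraph `A` -/
def env (A : List ((ℕ × ℕ) × ℕ)) (K : ℕ) : Env :=
  (scl (Mf A K) A, (Ls A, ((pws (bitsOf (wts A * Mf A K))).2, (pws (bitsOf (wts A * Mf A K))).1)))

/-- rounding with the threshold `θ`: `y` is `floor (y/2M)` twice plus `0, 1` or `2` -/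
def rnd (m : List Bool) (M θ y : ℕ) : ℕ := hlf (true :: m) (y + (2 * M - θ)) + hlf (true :: m) (y + θ)

/-- the threshold `θ` is good for all nodes -/
def gth (m : List Bool) (M r : ℕ) (V : List ℕ) (y : List (ℕ × ℕ)) (θ : ℕ) : Bool :=
  V.all fun v => decide (rnd m M θ (vec y v + 2 * r) = rnd m M θ (vec y v - (2 * r + 1)))

/-- the thresholds `4 r (2 i + 1)`, `i ≤ n` -/
def ths (r : ℕ) (V : List ℕ) : List ℕ := (List.range ((0 : ℕ) :: V).length).map fun i => 4 * (r * (2 * i + 1))

/-- rounding with a good threshold -/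
def fin (m : List Bool) (M r : ℕ) (V : List ℕ) (y : List (ℕ × ℕ)) : List (ℕ × ℕ) :=
  tab V fun v => rnd m M (((ths r V).filter fun θ => gth m M r V y θ).headD 0) (vec y v)

/-- the whole algorithm -/
def alg (K : ℕ) (A : List ((ℕ × ℕ) × ℕ)) : List (ℕ × ℕ) :=
  fin (ml A K) (Mf A K) (rad (Ls A) K) (verts A) (sol (env A K) K (verts A, tab (verts A) fun _ => 0))

/-! ### Properties of the subroutines -/

/-- all values are at most the bound, and `0` outside of the nodes -/
def Good (e : Env) (x : List (ℕ × ℕ)) : Prop :=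
  ∀ v, vec x v ≤ e.2.2.2 ∧ (v ∉ verts e.1 → vec x v = 0)

/-- the powers of two and the bound fit to the weights -/
def EnvOK (e : Env) : Prop := ∃ B : ℕ, e.2.2.1 = pwL B ∧ 2 ^ B ≤ e.2.2.2 + 1 ∧ wts e.1 < 2 ^ B

/-- `F (Y, x)` changes only the values of the nodes of `Y` and is good -/
def FA (e : Env) (F : List ℕ × List (ℕ × ℕ) → List (ℕ × ℕ)) : Prop :=
  ∀ (Y : List ℕ) (x : List (ℕ × ℕ)), (∀ u ∈ Y, u ∈ verts e.1) → Good e x →
    Good e (F (Y, x)) ∧ ∀ v, v ∉ Y → vec (F (Y, x)) v = vec x v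

/-- `F (Y, x)` solves the equations for the nodes of `Y` up to `r` if `Y` has rank at most `k` -/
def FB (e : Env) (k r : ℕ) (F : List ℕ × List (ℕ × ℕ) → List (ℕ × ℕ)) : Prop :=
  ∀ (Y : List ℕ) (x : List (ℕ × ℕ)), (∀ u ∈ Y, u ∈ verts e.1) → Good e x → Rank e.1 k {u | u ∈ Y} →
    ∀ v ∈ Y, near r (vec (F (Y, x)) v) (TL e.1 e.2.1.length (vec (F (Y, x))) v)

end Pool.Agent.Lib.MP_c29043_lc.CR
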