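import Pool.Agent.Lib.MP_c29043_lc.CR.Spec

/-!
# MP_c29043_lc, project CR: module Psi (helper10)
-/

set_option autoImplicit false

open N68a2faeb N487b59b3 Pool.Agent.Lib.PolyTime

namespace Pool.Agent.Lib.MP_c29043_lc.CR

open Pool.Agent.Lib.MP_c29043_lc

namespace PsiAux

private lemma div_le (N s d : ℕ) (hN : 0 < N) : (s + d) / N ≤ s / N + d := by
  have h1 : s + d ≤ s + N * d := by
    have : 1 * d ≤ N * d := Nat.mul_le_mul_right d hN
    omega
  calc (s + d) / N ≤ (s + N * d) / N := Nat.div_le_div_right h1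
    _ = s / N + d := by rw [Nat.add_mul_div_left s d hN]

private lemma mono (N s t : ℕ) (hN : 0 < N) (h : s ≤ t) :
    s - s / N ≤ t - t / N ∧ t - t / N ≤ (s - s / N) + ((t - s) - (t - s) / N) := by
  obtain ⟨d, rfl⟩ := Nat.exists_eq_add_of_le h
  have h1 := div_le N s d hN
  have h2 : s / N + d / N ≤ (s + d) / N := Nat.div_add_div_le_add_div
  have h3 : s / N ≤ s := Nat.div_le_self s N
  have h4 : d / N ≤ d := Nat.div_le_self d N
  have h5 : (s + d) / N ≤ s + d := Nat.div_le_self (s + d) N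
  have h6 : s + d - s = d := by omega
  rw [h6]
  omega

end PsiAux

theorem tPsi : S_Psi := by
  intro ℓ
  have hN : 0 < 2 ^ ℓ := Nat.two_pow_pos ℓ
  refine ⟨fun s t h => ?_, fun d r h => ?_⟩
  · unfold psi
    exact PsiAux.mono (2 ^ ℓ) s t hN h
  · unfold psi at h
    have h1 : d / 2 ^ ℓ ≤ d := Nat.div_le_self d _
    have h2 : d < 2 ^ ℓ * (d / 2 ^ ℓ + 1) := Nat.lt_mul_div_succ d hN
    have h3 : d / 2 ^ ℓ ≤ 2 * r ∨ d ≤ 2 * r + 1 := by
      rcases le_total (d - d / 2 ^ ℓ) 1 with h4 | h4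
      · right
        rw [max_eq_left h4] at h
        exact h
      · left
        rw [max_eq_right h4] at h
        omega
    rcases h3 with h3 | h3
    · have h5 : 2 ^ ℓ * (d / 2 ^ ℓ + 1) ≤ 2 ^ ℓ * (2 * r + 1) := Nat.mul_le_mul_left _ (by omega)
      omega
    · have h5 : 1 * (2 * r + 1) ≤ 2 ^ ℓ * (2 * r + 1) := Nat.mul_le_mul_right _ hN
      omega

end Pool.Agent.Lib.MP_c29043_lc.CR
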