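import Pool.Agent.Lib.MP_c29043_lc.CR.Def

/-!
# MP_c29043_lc, project CR (architect helper12): specification

THEOREM. For every `K` a polynomial time algorithm computes an orientation-compatible `w`-vertex cover (even weights
in binary) for all digraphs which can be emptied in `K` rounds of deleting one node from every strong component.

IDEA. `T x v = max (0, max_(u → v) (w - x u))`; a cover is a fixed point. All weights are multiplied by a power of two
`M`, and `x u` in `T` is replaced by `psi (x u) = x u - x u / 2^ℓ` (`TL`). For a component `X` guess `z ∈ X`, find the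
value `c` of `z` by bisection (the other nodes of `X` are solved recursively): at the end `c ≤ TL z` for `c` and
`TL z < c + 1` for `c + 1`, and the solutions for `c` and `c + 1` differ by at most `2^ℓ (2 r + 1)` (S_Dif), so the
equation at `z` holds up to this error. At the end all equations hold up to `2 r`, much smaller than `M`, and rounding
`y / M` with a good threshold gives an integral solution because the weights are even.

RULES. Each module imports Pool.Agent.Lib.MP_c29043_lc.CR.Spec and takes the used statements as hypotheses.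
Tools: Fix.lean (`le_T`, `le_T_add`, `T_le`, `T_attained`, `T_nonexp`, `T_anti`, `T_le_bound`, `le_lmax`, `lmax_le`),
Alg.lean (`vec_tab`, `vec_tab_zero`, `vec_tab_eq`, `sz_tab_mono`, `pws_eq`, `greedy_le`, `pt_vec`, `pt_tab`, `pt_T`, `pt_pws`,
`pt_lmax`), Solve.lean (`verts`, `wts`, `mem_verts`, `T_zero_of_not_mem`, `pt_verts`), PolyTime/*.lean (`pt_foldl`,
`exists_size`, `pt_comp`, `pt_map`, `pt_filter`, `pt_any`, `pt_all`, `pt_mem`, `pt_ite`, `pt_headD`, `pt_mul`, `pt_add`,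
`pt_sub`, `pt_le`, `pt_lt`, `pt_range`, `sz_*`, `lt_two_pow_sz`, `sz_nat`); models: Kd/Poly.lean.
-/

set_option autoImplicit false

open N68a2faeb N487b59b3 Pool.Agent.Lib.PolyTime

namespace Pool.Agent.Lib.MP_c29043_lc.CR

open Pool.Agent.Lib.MP_c29043_lc

/-! ## Numbers -/

/-- **Psi**. Uses nothing. Proof. `N = 2^ℓ`. `t / N ≤ s / N + (t - s)` gives monotonicity; `s / N + (t - s) / N ≤ t / N`
(`Nat.add_div_le_add_div`) gives `psi t - psi s ≤ psi (t - s)`. Second part: if `psi ℓ d ≤ 1` then `d ≤ 2 r + 1`.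
Otherwise `d ≤ 2 r + (d - d / N)`, so `d / N ≤ 2 r`, `d < N (2 r + 1)`. -/
def S_Psi : Prop := ∀ ℓ : ℕ, (∀ s t : ℕ, s ≤ t → psi ℓ s ≤ psi ℓ t ∧ psi ℓ t ≤ psi ℓ s + psi ℓ (t - s)) ∧
  ∀ d r : ℕ, d ≤ 2 * r + max 1 (psi ℓ d) → d ≤ 2 ^ ℓ * (2 * r + 1)

/-- **Hlf**. Uses nothing. Proof. `hlf`: induction, `Nat.div_div_eq_div_mul`. `TA`: `T` uses only the values at the tails
of the arcs, which are in `verts A` (`mem_verts`), `vec_tab` (two functions which agree at all tails have the same `T`: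
`T_nonexp` with `h = 0` needs all nodes, so argue with `T_le` and `le_T` or with `List.map_congr_left`). `rad`: `pws_eq`, length
of `rl`. -/
def S_Hlf : Prop := (∀ (L : List Bool) (n : ℕ), hlf L n = n / 2 ^ L.length) ∧
  (∀ (A : List ((ℕ × ℕ) × ℕ)) (L : List Bool) (x : List (ℕ × ℕ)) (v : ℕ), TA A L x v = TL A L.length (vec x) v) ∧
  (∀ (A : List ((ℕ × ℕ) × ℕ)) (x y : ℕ → ℕ) (v : ℕ), (∀ e ∈ A, e.1.2 = v → x e.1.1 = y e.1.1) → T A x v = T A y v) ∧
  ∀ (L : List Bool) (k : ℕ), rad L k = 2 ^ (k * (L.length + 2))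

/-- **Gre** (bisection without monotonicity). Uses nothing. Proof. More generally for a start `c0` with
`c0 = 0 ∨ P c0`, and `N` with `c0 + 2^B = N ∨ P (c0 + 2^B) = false`: the result `c` has `c0 ≤ c < c0 + 2^B`, `c = 0 ∨ P c`,
`c + 1 = N ∨ P (c+1) = false`. Induction on `B` (as `greedy_eq` in Alg.lean). -/
def S_Gre : Prop := ∀ (P : ℕ → Bool) (B : ℕ),
  (pwL B).foldl (fun c p => if P (c + p) = true then c + p else c) 0 < 2 ^ B ∧
  ((pwL B).foldl (fun c p => if P (c + p) = true then c + p else c) 0 = 0 ∨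
    P ((pwL B).foldl (fun c p => if P (c + p) = true then c + p else c) 0) = true) ∧
  ((pwL B).foldl (fun c p => if P (c + p) = true then c + p else c) 0 + 1 = 2 ^ B ∨
    P ((pwL B).foldl (fun c p => if P (c + p) = true then c + p else c) 0 + 1) = false)

/-- **Dif** (two approximate solutions). Uses: S_Psi. Proof. `d` = the maximum of `|x u - y u|` over `u ∈ Y` (`0` if `Y` is
empty), `h = max 1 (psi ℓ d)`. For all `u`: `|psi (x u) - psi (y u)| ≤ h`: for `u ∈ Y` it is `≤ psi |x u - y u| ≤ psi d`; for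
`u = z ∉ Y` it is `≤ psi 1 ≤ 1`; else `0`. So `|TL x v - TL y v| ≤ h` for all `v` (`T_nonexp` twice). For `u ∈ Y`:
`|x u - y u| ≤ r + h + r`; so `d ≤ 2 r + h` and `d ≤ 2^ℓ (2 r + 1)` (S_Psi), `h ≤ max 1 d ≤ 2^ℓ (2 r + 1)`. -/
def S_Dif : Prop := ∀ (A : List ((ℕ × ℕ) × ℕ)) (ℓ r : ℕ) (x y : ℕ → ℕ) (Y : List ℕ) (z : ℕ), near 1 (x z) (y z) →
  (∀ u, u ∉ Y → u ≠ z → x u = y u) → (∀ u ∈ Y, near r (x u) (TL A ℓ x u)) → (∀ u ∈ Y, near r (y u) (TL A ℓ y u)) →
  ∀ v, near (2 ^ ℓ * (2 * r + 1)) (TL A ℓ x v) (TL A ℓ y v)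

/-- **BiA**. Uses: S_Gre. Proof. `bic` is the fold of S_Gre for `P t = decide (t ≤ TA .. (F (Y, upd .. z t)) z)`, so
`bic < 2^B ≤ e.2.2.2 + 1`. `upd e.1 x z c` with `c ≤ e.2.2.2`, `z ∈ verts e.1` is `Good`; then `FA`. -/
def S_BiA : Prop := ∀ (e : Env) (F : List ℕ × List (ℕ × ℕ) → List (ℕ × ℕ)), EnvOK e → FA e F →
  ∀ (X : List ℕ) (x : List (ℕ × ℕ)) (z : ℕ), (∀ u ∈ X, u ∈ verts e.1) → Good e x → z ∈ X →
  Good e (bis e F z (X.filter fun u => decide (u ≠ z)) x) ∧
    ∀ v, v ∉ X → vec (bis e F z (X.filter fun u => decide (u ≠ z)) x) v = vec x v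

/-- **Bis** (the bisection). Uses: S_Hlf, S_Gre, S_Dif. Proof. `Y = X.filter (· ≠ z)`, `ℓ = e.2.1.length`,
`R = 2^ℓ (2 r + 1)`, `y t = F (Y, upd e.1 x z t)`, `P t = decide (t ≤ TA .. (y t) z)`, `c = bic ..` (the fold of S_Gre), so `bis = y c`.
For `t < 2^B`: `t ≤ e.2.2.2`, `upd .. z t` is `Good`, `vec (y t) z = t` (`z ∉ Y`, `z ∈ verts`), `vec (y t) v = vec x v` for
`v ∉ Y`, `v ≠ z` (`FA`, `vec_tab`, and `0` outside of `verts`), and `near r` at all nodes of `Y` (`FB`; `{u | u ∈ Y} = {u | u ∈ X} \ {z}`).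
At `v ∈ Y`: `r ≤ R`. At `z`: `c ≤ TL (y c) z` (`c = 0` or `P c`). If `c + 1 = 2^B`: `TL (y c) z ≤ wts e.1 < 2^B`, so `≤ c`
(`T_le_bound`). Otherwise `TL (y (c+1)) z < c + 1`, and by S_Dif for `y c`, `y (c+1)`: `TL (y c) z ≤ c + R`. -/
def S_Bis : Prop := ∀ (e : Env) (F : List ℕ × List (ℕ × ℕ) → List (ℕ × ℕ)) (k r : ℕ), EnvOK e → FA e F → FB e k r F →
  ∀ (X : List ℕ) (x : List (ℕ × ℕ)) (z : ℕ), (∀ u ∈ X, u ∈ verts e.1) → Good e x → z ∈ X →
  Rank e.1 k ({u | u ∈ X} \ {z}) → ∀ v ∈ X, near (2 ^ e.2.1.length * (2 * r + 1))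
    (vec (bis e F z (X.filter fun u => decide (u ≠ z)) x) v)
    (TL e.1 e.2.1.length (vec (bis e F z (X.filter fun u => decide (u ≠ z)) x)) v)

/-! ## Components -/

/-- **Pre**. Uses nothing. Proof. `S_j` = the list after `j` steps: a filter of `R`, `S_j ⊆ S_(j+1)`, all nodes of `S_j` reach `v`
inside `R`, and every `u` which reaches `v` by a path with at most `j` arcs is in `S_j`; if `S_(j+1)` and `S_j` have the
same length they are equal (filters of the same list, one condition implies the other) and stay equal; otherwise the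
length grows, so after `R.length` steps (start: at least one element) the list is stable, hence closed backwards and
contains all `u` which reach `v` (`Relation.ReflTransGen.head_induction_on`). -/
def S_Pre : Prop := ∀ (A : List ((ℕ × ℕ) × ℕ)) (R : List ℕ) (v : ℕ), (∃ p : ℕ → Bool, pre A R v = R.filter p) ∧
  (v ∈ R → ∀ u, u ∈ pre A R v ↔ u ∈ R ∧ Relation.ReflTransGen (Adj A {w | w ∈ R}) u v)

/-- **Src** (source component). Uses: S_Pre. Proof. `src A R = pre A R v0` for some `v0 ∈ R` with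
`(pre A R v0).length ≤ (pre A R v).length` for all `v ∈ R` (the fold is an arg min; `R.headD 0 ∈ R`). Call it `X`; `v0 ∈ X`.
Closed backwards in `R`: one more arc (`e.1.1` reaches `e.1.2` reaches `v0`). For `u ∈ X`: `pre A R u ⊆ X` (transitivity); both
are filters of `R` and the length of `pre A R u` is not smaller, so they have the same elements: `v0` reaches `u`. So all nodes
of `X` reach each other inside `R`; a path inside `R` to a node of `X` stays in `X` (all its nodes reach `v0`), so inside `X`. -/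
def S_Src : Prop := ∀ (A : List ((ℕ × ℕ) × ℕ)) (R : List ℕ), R ≠ [] → (∀ u ∈ src A R, u ∈ R) ∧ src A R ≠ [] ∧
  Strong A {u | u ∈ src A R} ∧ ∀ e ∈ A, e.1.2 ∈ src A R → e.1.1 ∈ R → e.1.1 ∈ src A R

/-- **Cmp**. Uses: S_Hlf, S_BiA, S_Bis. Proof. `cmp` is `x` or one of the lists `bis e F z ..`, `z ∈ X`, which pass the test `res` for
all `v ∈ X` (head of a filtered list); so `Good` and unchanged outside of `X` by S_BiA. If the rank condition holds for
`z`, the list for `z` passes the test (S_Bis, `2^ℓ (2 r + 1) ≤ ρ`, `TA = TL`), so the filtered list is not empty and its head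
passes the test, i.e. `near ρ`. -/
def S_Cmp : Prop := ∀ (e : Env) (F : List ℕ × List (ℕ × ℕ) → List (ℕ × ℕ)) (k r ρ : ℕ), EnvOK e → FA e F → FB e k r F →
  2 ^ e.2.1.length * (2 * r + 1) ≤ ρ → ∀ (X : List ℕ) (x : List (ℕ × ℕ)), (∀ u ∈ X, u ∈ verts e.1) → Good e x →
  Good e (cmp e F ρ X x) ∧ (∀ v, v ∉ X → vec (cmp e F ρ X x) v = vec x v) ∧
  ((∃ z ∈ X, Rank e.1 k ({u | u ∈ X} \ {z})) →
    ∀ v ∈ X, near ρ (vec (cmp e F ρ X x) v) (TL e.1 e.2.1.length (vec (cmp e F ρ X x)) v))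

/-- **Lop** (all components). Uses: S_Hlf, S_Src, S_Cmp. Proof. Let `p = (U, x0)`. `stp` does not change a pair with `s.1 = []`.
Otherwise, with `X = src e.1 s.1`: `s.1` loses `X` (its length gets smaller, `X ≠ []`), and the new values are those of
`cmp e F ρ X s.2` (`min` with the bound and `tab` do not change a `Good` list), which differ only on `X`. Invariant along the fold
for `s = (R, x)`: `∀ u ∈ R, u ∈ U`; `Good e x`; `vec x v = vec x0 v` for `v ∉ U`; and if `Rank e.1 (k+1) {u | u ∈ U}`: for all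
`v ∈ U` with `v ∉ R`: `near ρ (vec x v) (TL .. (vec x) v)`, and no arc goes from a node of `R` to such a `v`. Step: for an old `v` the
values at the tails do not change (they are not in `R ⊇ X`; third part of S_Hlf), for `v ∈ X`: S_Cmp (`X ⊆ U` is nonempty
and strong, so the definition of `Rank` gives `z`); arcs from `R \ X` to `X`: excluded by S_Src. The fold has `U.length` steps
and the length of `R` decreases by at least one as long as `R ≠ []`, so at the end `R = []`. -/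
def S_Lop : Prop := ∀ (e : Env) (F : List ℕ × List (ℕ × ℕ) → List (ℕ × ℕ)) (k r ρ : ℕ), EnvOK e → FA e F → FB e k r F →
  2 ^ e.2.1.length * (2 * r + 1) ≤ ρ → FA e (fun p => (lop e F ρ p).2) ∧ FB e (k + 1) ρ (fun p => (lop e F ρ p).2)

/-- **Ind**. Uses: S_Hlf, S_Lop. Proof. Induction on `k`. `k = 0`: `sol e 0 p = p.2`, and `Rank e.1 0` means that `Y` has no
elements. Step: S_Lop with `r = rad L k`, `ρ = rad L (k+1) = 4 * 2^ℓ * rad L k ≥ 2^ℓ (2 r + 1)` (`r ≥ 1`). -/
def S_Ind : Prop := ∀ e : Env, EnvOK e → ∀ k : ℕ, FA e (sol e k) ∧ FB e k (rad e.2.1 k) (sol e k)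

/-! ## Rounding -/

/-- **Apx**. Uses: S_Hlf, S_Ind. Proof. `e = env A K`, `M = Mf A K = 2^(ml A K).length = r * 2^(n+5)`, `r = rad (Ls A) K = 2^(K (ℓ+2))`,
`n = (verts A).length`, `W = wts A`, `ℓ = (Ls A).length = (bitsOf W).length + n + 5`, so `(W + 1) 2^(n+5) ≤ 2^ℓ`
(`lt_two_pow_sz`, `sz_nat`). `verts (scl M A) = verts A` (same ends), `wts (scl M A) ≤ W M < 2^B`, `B = (bitsOf (W M)).length`, `EnvOK e`
(`pws_eq`); `Rank (scl M A) = Rank A` (`Adj` is the same relation: `∃ w`). `x0 = tab (verts A) 0` is `Good`, so S_Ind applies: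
`near r (vec y v) (TL .. v)` for `v ∈ verts A`. `TL ≤ W M` (`T_le_bound`), so `vec y v ≤ W M + r`, also outside of `verts A` (value 0),
and `vec y v / 2^ℓ ≤ (W M + r) / 2^ℓ ≤ r` because `W M + r ≤ r 2^(n+5) (W + 1) ≤ r 2^ℓ`. So `psi y ≤ y ≤ psi y + r` and
`T y ≤ TL y ≤ T y + r` (`T_anti`, `T_nonexp`): `near (2 r)`. -/
def S_Apx : Prop := ∀ (K : ℕ) (A : List ((ℕ × ℕ) × ℕ)), Rank A K {v | v ∈ verts A} →
  (∀ v ∈ verts A, near (2 * rad (Ls A) K) (vec (sol (env A K) K (verts A, tab (verts A) fun _ => 0)) v)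
    (T (scl (Mf A K) A) (vec (sol (env A K) K (verts A, tab (verts A) fun _ => 0))) v)) ∧
  (∀ v, v ∉ verts A → vec (sol (env A K) K (verts A, tab (verts A) fun _ => 0)) v = 0) ∧
  Mf A K = 2 ^ (ml A K).length ∧ Mf A K = rad (Ls A) K * 2 ^ ((verts A).length + 5) ∧ 0 < rad (Ls A) K

/-- **Thr** (a good threshold). Uses: S_Hlf. Proof. `n = V.length`, `θ_i = 4 r (2 i + 1)`, `i ≤ n`: `4 r ≤ θ_i`, `2 θ_i ≤ 8 r (2 n + 1) ≤ M`.
`rnd m M θ y = (y + (2M - θ))/(2M) + (y + θ)/(2M)` is monotone in `y`. If `θ` is not good for `v`, `y = vec y v`, then one of the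
two quotients changes between `y - (2r+1)` (truncated) and `y + 2r`: there is an integer `q` with `|2 M q - y - θ| ≤ 2 r` or
`|2 M q - y + θ| ≤ 2 r`. Two different `θ_i, θ_j` cannot both be bad for the same `v`: `8 r ≤ |θ_i - θ_j| ≤ M / 2` and
`8 r ≤ θ_i + θ_j ≤ M`, but the difference of the two inequalities says that an integer multiple of `2 M` is within `4 r` of
`± (θ_i - θ_j)` or `± (θ_i + θ_j)`; and `M ≥ 32 r`. So at most `n` of the `n + 1` thresholds are bad (pigeonhole: bad `i ↦` a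
position in `V`, `Finset.exists_ne_map_eq_of_card_lt_of_maps_to`). -/
def S_Thr : Prop := ∀ (m : List Bool) (M r : ℕ) (V : List ℕ) (y : List (ℕ × ℕ)), M = 2 ^ m.length →
  M = r * 2 ^ (V.length + 5) → 0 < r → (∀ θ ∈ ths r V, 4 * r ≤ θ ∧ 2 * θ ≤ M) ∧ ∃ θ ∈ ths r V, gth m M r V y θ = true

/-- **Rnd** (the rounded vector is a cover). Uses: S_Hlf. Proof. `R t = rnd m M θ t = (t + (2M - θ))/(2M) + (t + θ)/(2M)`, monotone.
`y v` = `vec y v`. For `v ∈ verts A` and `y v - (2r+1) ≤ t ≤ y v + 2 r`: `R t = R (y v)`. (1) `2 M` divides neither `y v + θ` nor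
`y v + (2M - θ)`: for `y v ≥ 1` because `R (y v - 1) = R (y v)`, for `y v = 0` because `0 < θ < 2M`. (2) If `w = 2 j`, `t ≤ w M`
and `2 M` does not divide `t + θ`, `t + (2M - θ)`, then `R (w M - t) + R t = w`: write `t + θ = 2 M q + s`, `0 < s < 2 M`; then
`w M - t + (2M - θ) = 2 M (j - q) + (2 M - s)`, so the quotients are `q` and `j - q` (`q ≤ j`); similarly
`t + (2M - θ) = 2 M q' + s'`, `w M - t + θ = 2 M (j - q') + (2M - s')`. `R (w M) = w`. COVER: arc `(u, v)` of weight `w`. If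
`y u ≥ w M`: `R (y u) ≥ w`. Otherwise `w M - y u ≤ T v ≤ y v + 2 r`, `R (y v) = R (y v + 2 r) ≥ R (w M - y u) = w - R (y u)`.
TIGHT: `R (y v) > 0` (so `v ∈ verts A`) implies `θ ≤ y v` (`2 θ ≤ M`), so `T v ≥ y v - 2 r > 0`; `T_attained`: an arc
`(u, v)` of weight `w` with `y u + T v = w M`; `t = T v` is within `2 r` of `y v`, so `R (y v) = R (w M - y u) = w - R (y u)`. -/
def S_Rnd : Prop := ∀ (A : List ((ℕ × ℕ) × ℕ)) (m : List Bool) (M r θ : ℕ) (y : List (ℕ × ℕ)), (∀ a ∈ A, Even a.2) →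
  M = 2 ^ m.length → 0 < r → 4 * r ≤ θ → 2 * θ ≤ M →
  (∀ v ∈ verts A, near (2 * r) (vec y v) (T (scl M A) (vec y) v)) → (∀ v, v ∉ verts A → vec y v = 0) →
  gth m M r (verts A) y θ = true → IsCover A (vec (tab (verts A) fun v => rnd m M θ (vec y v)))

/-- **Cor** (correctness). Uses: S_Apx, S_Thr, S_Rnd. Proof. `y = sol (env A K) K ..`. By S_Thr the filtered list of thresholds is not
empty; its head `θ` is in `ths` and good; S_Rnd. -/
def S_Cor : Prop := ∀ (K : ℕ) (A : List ((ℕ × ℕ) × ℕ)), (∀ a ∈ A, Even a.2) → Rank A K {v | v ∈ verts A} →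
  IsCover A (vec (alg K A))

/-! ## Running time -/

/-- **PtA** (simple functions). Uses nothing. Proof. `hlf`: `pt_foldl`, the step `s / 2` is `ofBits (bitsOf s).tail`
(`Nat.div2`/`ofBits_tail`, `ofBits_bitsOf`; `pt_ofBits`, `pt_tail`, `pt_bitsOf`), the intermediate values are `≤ n` (`sz_mono`).
The others: `unfold`, `fun_prop` (give the fact for `hlf` by `pt_comp`, or make it a local `@[fun_prop]` theorem); `rl L k`:
induction on `k`; see `pt_wt`, `pt_gl` in Kd/Poly.lean. -/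
def S_PtA : Prop :=
  IsPolyTime (fun p : List Bool × ℕ => hlf p.1 p.2) ∧
  IsPolyTime (fun p : (List ((ℕ × ℕ) × ℕ) × List Bool) × (List (ℕ × ℕ) × ℕ) => TA p.1.1 p.1.2 p.2.1 p.2.2) ∧
  (∀ k : ℕ, IsPolyTime (fun L : List Bool => rad L k)) ∧
  IsPolyTime (fun p : (List ((ℕ × ℕ) × ℕ) × List (ℕ × ℕ)) × (ℕ × ℕ) => upd p.1.1 p.1.2 p.2.1 p.2.2) ∧
  IsPolyTime (fun p : (Env × ℕ) × (List (ℕ × ℕ) × ℕ) => res p.1.1 p.1.2 p.2.1 p.2.2)

/-- **PtB** (components). Uses nothing. Proof. `pstep`: `unfold`, `fun_prop`. `pre`: `pt_foldl`, all intermediate lists are filters of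
`R`, so their size is at most the size of `R` (prove `sz (R.filter p) ≤ sz R` by induction). `src`: `pt_foldl`, the
intermediate lists are of the form `pre A R v`; the comparison of lengths by `pt_length`, `pt_lt`, `pt_ite`. -/
def S_PtB : Prop := IsPolyTime (fun p : List ((ℕ × ℕ) × ℕ) × List ℕ => src p.1 p.2)

/-- **PtC** (bisection). Uses: S_PtA. Proof. `bic`: `pt_foldl` with the parameter `((e, z), (Y, x))`; the intermediate values are at
most the sum of the list `e.2.2.1` (`greedy_le`; `List.take` has a smaller sum), and `sz l.sum ≤ sz l` for a list of naturals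
(induction: `sz_add_le`, `sz_cons`). The step uses `F` (`pt_comp`), `upd`, `TA` (S_PtA), `pt_le`, `pt_ite`. `bis`: `pt_comp`. -/
def S_PtC : Prop := ∀ F : Env × (List ℕ × List (ℕ × ℕ)) → List (ℕ × ℕ), IsPolyTime F →
  IsPolyTime (fun p : (Env × ℕ) × (List ℕ × List (ℕ × ℕ)) => bis p.1.1 (fun q => F (p.1.1, q)) p.1.2 p.2.1 p.2.2)

/-- **PtD** (component). Uses: S_PtA, S_PtC. Proof. `pt_headD`-like (`headD x` with variable default: `l.headD x = (l ++ [x]).headD []`),
`pt_filter`, `pt_all`, `pt_map`, `res` from S_PtA, `bis` from S_PtC. (Parameter `p = ((e, ρ), (X, x))`.) -/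
def S_PtD : Prop := ∀ F : Env × (List ℕ × List (ℕ × ℕ)) → List (ℕ × ℕ), IsPolyTime F →
  IsPolyTime (fun p : (Env × ℕ) × (List ℕ × List (ℕ × ℕ)) => cmp p.1.1 (fun q => F (p.1.1, q)) p.1.2 p.2.1 p.2.2)

/-- **PtE** (loop). Uses: S_PtB, S_PtD. Proof. `stp` by `pt_ite`, `pt_pair`, `pt_filter`, `pt_tab`, `pt_min`. `lop`: `pt_foldl`; an intermediate
pair is the start or `(a filter of .. of U, tab (verts e.1) (min (bound) ..))`, of size at most
`sz (U, x) + sz (U, tab (verts e.1) fun _ => e.2.2.2)` (`sz (l.filter p) ≤ sz l`, `sz_tab_mono`, `sz_pair`). -/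
def S_PtE : Prop := ∀ F : Env × (List ℕ × List (ℕ × ℕ)) → List (ℕ × ℕ), IsPolyTime F →
  IsPolyTime (fun p : (Env × ℕ) × (List ℕ × List (ℕ × ℕ)) => lop p.1.1 (fun q => F (p.1.1, q)) p.1.2 p.2)

/-- **PtF** (the recursion). Uses: S_PtA, S_PtE. Proof. Induction on `k`: `sol p.1 (k+1) p.2 = (lop p.1 (fun q => F (p.1, q)) (rad ..) p.2).2` with
`F q = sol q.1 k q.2`. -/
def S_PtF : Prop := ∀ k : ℕ, IsPolyTime (fun p : Env × (List ℕ × List (ℕ × ℕ)) => sol p.1 k p.2)

/-- **PtG** (the whole algorithm). Uses: S_PtA, S_PtF. Proof. `Ls`, `ml`, `Mf`, `scl`, `env`, `rnd`, `gth`, `ths`, `fin`: `unfold`, `fun_prop`, with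
`hlf` and `rad` from S_PtA (`rl (Ls A) K`: induction on `K`). -/
def S_PtG : Prop := ∀ K : ℕ, IsPolyTime (fun A : List ((ℕ × ℕ) × ℕ) => alg K A)

/-! ## The theorem -/

/-- the nodes of `A` -/
def nodes (A : List ((ℕ × ℕ) × ℕ)) : Set ℕ := {v | ∃ a ∈ A, a.1.1 = v ∨ a.1.2 = v}

/-- **Fin**. Uses: S_Cor, S_PtG. Proof. `nodes A = {v | v ∈ verts A}` (`mem_nub`). -/
def S_Fin : Prop := ∀ K : ℕ, CoversInP fun A => Rank A K (nodes A)

end Pool.Agent.Lib.MP_c29043_lc.CR
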